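import Mathlib
import Pool.Agent.R930.MTProd

/-!
# The tensor constructions
-/

set_option autoImplicit false
set_option linter.unusedSectionVars false

namespace Pool.Agent.R855.MT.Constr

open Module Pool.Agent.R930

noncomputable section

variable {k : Type} [Field k] {X P : Type} [AddCommGroup X] [Module k X] [AddCommGroup P]
  [Module k P] {Γ G : Type} [Group Γ] [Group G]

/-- `P` is spanned by the values of multilinear maps from `X` to `P` which respect the two actions
up to twists. -/
def IsConstructed (ρ : Representation k Γ X) (χ : Γ →* k) (R : Representation k G X) (ν : G →* k)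
    (σ : Representation k Γ P) (S : Representation k G P) : Prop :=
  Submodule.span k {p : P | ∃ (n : ℕ) (t : ℤ) (m : MultilinearMap k (fun _ : Fin n => X) P),
    (∀ g x, σ g (m x) = χ g ^ t • m (fun i => ρ g (x i))) ∧
    (∀ h x, S h (m x) = ν h ^ t • m (fun i => R h (x i))) ∧ ∃ x, p = m x} = ⊤

section comp

variable {s : ℕ} (ψ : MultilinearMap k (fun _ : Fin s => P) k) (n : Fin s → ℕ)
  (m : ∀ i, MultilinearMap k (fun _ : Fin (n i) => X) P)

theorem sigma_update [DecidableEq (Σ i, Fin (n i))] (y : (Σ i, Fin (n i)) → X) (a : Σ i, Fin (n i)) (c : X) (i : Fin s) :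
    m i (fun l => (Function.update y a c) ⟨i, l⟩) =
      Function.update (fun i => m i (fun l => y ⟨i, l⟩)) a.1
        (m a.1 (Function.update (fun l => y ⟨a.1, l⟩) a.2 c)) i := by
  obtain ⟨i₀, l₀⟩ := a
  by_cases h : i = i₀
  · subst h
    rw [Function.update_self]
    congr 1
    funext l
    by_cases hl : l = l₀
    · subst hl
      rw [Function.update_self, Function.update_self]
    · rw [Function.update_of_ne hl, Function.update_of_ne]
      intro h'
      exact hl (by simpa using h')
  · rw [Function.update_of_ne h]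
    congr 1
    funext l
    rw [Function.update_of_ne]
    intro h'
    exact h (congrArg Sigma.fst h')

/-- The composition of multilinear maps. -/
def compSigma : MultilinearMap k (fun _ : Σ i, Fin (n i) => X) k where
  toFun y := ψ fun i => m i fun l => y ⟨i, l⟩
  map_update_add' := by
    intro inst y a c c'
    have h : ∀ c, (fun i => m i fun l => (Function.update y a c) ⟨i, l⟩) =
        Function.update (fun i => m i (fun l => y ⟨i, l⟩)) a.1
        (m a.1 (Function.update (fun l => y ⟨a.1, l⟩) a.2 c)) := fun c =>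
      funext (sigma_update n m y a c)
    rw [h, h, h, (m a.1).map_update_add, ψ.map_update_add]
  map_update_smul' := by
    intro inst y a c c'
    have h : ∀ c, (fun i => m i fun l => (Function.update y a c) ⟨i, l⟩) =
        Function.update (fun i => m i (fun l => y ⟨i, l⟩)) a.1
        (m a.1 (Function.update (fun l => y ⟨a.1, l⟩) a.2 c)) := fun c =>
      funext (sigma_update n m y a c)
    rw [h, h, (m a.1).map_update_smul, ψ.map_update_smul]

theorem compSigma_apply (y : (Σ i, Fin (n i)) → X) :
    compSigma ψ n m y = ψ fun i => m i fun l => y ⟨i, l⟩ := rfl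

end comp

variable {ρ : Representation k Γ X} {χ : Γ →* k} {R : Representation k G X} {ν : G →* k}
  {σ : Representation k Γ P} {S : Representation k G P}

theorem prod_zpow' {c : k} (hc : c ≠ 0) {s : ℕ} (t : Fin s → ℤ) :
    (∏ i, c ^ t i) = c ^ (∑ i, t i) := by
  induction s with
  | zero => simp
  | succ s ih => rw [Fin.prod_univ_succ, Fin.sum_univ_succ, zpow_add₀ hc, ih]

/-- Tensors of tensor constructions. -/
theorem fixes_of_constructed (hP : IsConstructed ρ χ R ν σ S) (hX : FixesTateTensors ρ χ R ν) :
    FixesTateTensors σ χ S ν := by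
  classical
  intro s j ψ hψ h v
  obtain ⟨Δ, hΔ, hψ⟩ := hψ
  let ψ' : MultilinearMap k (fun _ : Fin s => P) k := ψ.compLinearMap fun _ => S h
  have key : ψ' = ν h ^ j • ψ := by
    refine Basis.ext_multilinear (fun _ => Basis.ofSpan (le_of_eq hP.symm)) fun w => ?_
    have hw : ∀ i, ∃ (n : ℕ) (t : ℤ) (m : MultilinearMap k (fun _ : Fin n => X) P),
        (∀ g x, σ g (m x) = χ g ^ t • m (fun i => ρ g (x i))) ∧
        (∀ h x, S h (m x) = ν h ^ t • m (fun i => R h (x i))) ∧
        ∃ x, Basis.ofSpan (le_of_eq hP.symm) (w i) = m x := fun i =>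
      Basis.ofSpan_subset (le_of_eq hP.symm) ⟨w i, rfl⟩
    choose n t m h1 h2 x hx using hw
    have hx' : (fun i => Basis.ofSpan (le_of_eq hP.symm) (w i)) = fun i => m i (x i) :=
      funext hx
    change ψ (fun i => S h (Basis.ofSpan (le_of_eq hP.symm) (w i))) =
      ν h ^ j * ψ (fun i => Basis.ofSpan (le_of_eq hP.symm) (w i))
    have hx'' : (fun i => S h (Basis.ofSpan (le_of_eq hP.symm) (w i))) =
        fun i => ν h ^ t i • m i (fun l => R h (x i l)) := funext fun i => by
      rw [hx i, h2]
    rw [hx', hx'', MultilinearMap.map_smul_univ]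
    have h3 := hX.fintype (j - ∑ i, t i) (compSigma ψ n m) ⟨Δ, hΔ, fun g hg y => by
      have h4 := hψ g hg fun i => m i fun l => y ⟨i, l⟩
      have h5 : (fun i => σ g (m i fun l => y ⟨i, l⟩)) =
          fun i => χ g ^ t i • m i fun l => ρ g (y ⟨i, l⟩) := funext fun i => h1 i g _
      rw [h5, MultilinearMap.map_smul_univ, smul_eq_mul] at h4
      rw [compSigma_apply, compSigma_apply]
      have h6 : (∏ i, χ g ^ t i) = χ g ^ (∑ i, t i) :=
        prod_zpow' (char_ne χ g) t
      rw [h6] at h4
      rw [zpow_sub₀ (char_ne χ g), div_mul_eq_mul_div, eq_div_iff (zpow_ne_zero _ (char_ne χ g)),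
        mul_comm]
      exact h4⟩ h fun a => x a.1 a.2
    rw [compSigma_apply, compSigma_apply] at h3
    change ψ (fun i => m i fun l => R h (x i l)) = ν h ^ (j - ∑ i, t i) * ψ (fun i => m i (x i)) at h3
    rw [smul_eq_mul, h3, ← mul_assoc]
    congr 1
    have h6 : (∏ i, ν h ^ t i) = ν h ^ (∑ i, t i) := prod_zpow' (char_ne ν h) t
    rw [h6, ← zpow_add₀ (char_ne ν h)]
    congr 1
    ring
  exact congrArg (fun F : MultilinearMap k (fun _ : Fin s => P) k => F v) key

end

end Pool.Agent.R855.MT.Constr
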