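import Mathlib
import Pool.Agent.R855.MT.Constr

/-!
# The second cohomology of `A ^ n × Z`
-/

set_option autoImplicit false
set_option linter.unusedSectionVars false

namespace Pool.Agent.R855.MT.Constr

open Module Pool.Agent.R930

noncomputable section

variable {k : Type} [Field k]

section gen

variable {X P : Type} [AddCommGroup X] [Module k X] [AddCommGroup P]
  [Module k P] {Γ G : Type} [Group Γ] [Group G]

/-- The generators. -/
def gens (ρ : Representation k Γ X) (χ : Γ →* k) (R : Representation k G X) (ν : G →* k)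
    (σ : Representation k Γ P) (S : Representation k G P) : Set P :=
  {p : P | ∃ (n : ℕ) (t : ℤ) (m : MultilinearMap k (fun _ : Fin n => X) P),
    (∀ g x, σ g (m x) = χ g ^ t • m (fun i => ρ g (x i))) ∧
    (∀ h x, S h (m x) = ν h ^ t • m (fun i => R h (x i))) ∧ ∃ x, p = m x}

variable {ρ : Representation k Γ X} {χ : Γ →* k} {R : Representation k G X} {ν : G →* k}
  {σ : Representation k Γ P} {S : Representation k G P}

theorem lin_mem (L : X →ₗ[k] P) (t : ℤ) (h1 : ∀ g x, σ g (L x) = χ g ^ t • L (ρ g x))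
    (h2 : ∀ h x, S h (L x) = ν h ^ t • L (R h x)) (x : X) : L x ∈ gens ρ χ R ν σ S :=
  ⟨1, t, MultilinearMap.ofSubsingleton k X P (0 : Fin 1) L, fun g x => h1 g (x 0),
    fun g x => h2 g (x 0), fun _ => x, rfl⟩

/-- A bilinear map as a multilinear map. -/
def bil2 (B : X →ₗ[k] X →ₗ[k] P) : MultilinearMap k (fun _ : Fin 2 => X) P where
  toFun x := B (x 0) (x 1)
  map_update_add' := by
    intro inst x i a b
    fin_cases i <;> simp
  map_update_smul' := by
    intro inst x i a b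
    fin_cases i <;> simp

theorem bil_mem (B : X →ₗ[k] X →ₗ[k] P) (t : ℤ)
    (h1 : ∀ g x y, σ g (B x y) = χ g ^ t • B (ρ g x) (ρ g y))
    (h2 : ∀ h x y, S h (B x y) = ν h ^ t • B (R h x) (R h y)) (x y : X) :
    B x y ∈ gens ρ χ R ν σ S :=
  ⟨2, t, bil2 B, fun g x => h1 g (x 0) (x 1), fun g x => h2 g (x 0) (x 1), ![x, y], rfl⟩

end gen

section pow

variable {V W : Type} [AddCommGroup V] [Module k V] [AddCommGroup W] [Module k W] {Γ G : Type}
  [Group Γ] [Group G]

/-- The action on `V ^ n`. -/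
def powRep (ρ : Representation k Γ V) (n : ℕ) : Representation k Γ (Fin n → V) where
  toFun g := (ρ g).compLeft (Fin n)
  map_one' := by
    rw [map_one]
    rfl
  map_mul' g h := by
    rw [map_mul]
    rfl

theorem powRep_apply (ρ : Representation k Γ V) (n : ℕ) (g : Γ) (x : Fin n → V) (i : Fin n) :
    powRep ρ n g x i = ρ g (x i) := rfl

theorem powRep_single (ρ : Representation k Γ V) (n : ℕ) (g : Γ) (v : V) (i : Fin n) :
    powRep ρ n g (Pi.single i v) = Pi.single i (ρ g v) := by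
  funext j
  rw [powRep_apply]
  by_cases h : j = i
  · subst h
    rw [Pi.single_eq_same, Pi.single_eq_same]
  · rw [Pi.single_eq_of_ne h, Pi.single_eq_of_ne h, map_zero]

theorem pow_constructed (ρ : Representation k Γ V) (τ : Representation k Γ W) (χ : Γ →* k)
    (R : Representation k G V) (T : Representation k G W) (ν : G →* k) (n : ℕ) :
    IsConstructed (ρ.prod τ) χ (R.prod T) ν ((powRep ρ n).prod τ) ((powRep R n).prod T) := by
  change Submodule.span k (gens _ _ _ _ _ _) = ⊤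
  rw [eq_top_iff]
  rintro ⟨x, w⟩ -
  have h1 : ((x, w) : (Fin n → V) × W) = (∑ i, ((Pi.single i (x i) : Fin n → V), (0 : W))) +
      (0, w) := by
    have h2 : ∑ i, ((Pi.single i (x i) : Fin n → V), (0 : W)) =
        ((∑ i, (Pi.single i (x i) : Fin n → V)), (0 : W)) :=
      (map_sum (LinearMap.inl k (Fin n → V) W) (fun i => (Pi.single i (x i) : Fin n → V))
        Finset.univ).symm
    rw [h2, Finset.univ_sum_single]
    simp
  rw [h1]
  refine Submodule.add_mem _ (Submodule.sum_mem _ fun i _ => Submodule.subset_span ?_)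
    (Submodule.subset_span ?_)
  · have h3 := lin_mem (ρ := ρ.prod τ) (χ := χ) (R := R.prod T) (ν := ν)
      (σ := (powRep ρ n).prod τ) (S := (powRep R n).prod T)
      ((LinearMap.inl k (Fin n → V) W).comp ((LinearMap.single k (fun _ => V) i).comp
        (LinearMap.fst k V W))) 0
      (fun g y => by
        rw [zpow_zero, one_smul]
        change (powRep ρ n g (Pi.single i y.1), τ g 0) = (Pi.single i (ρ g y.1), 0)
        rw [powRep_single, map_zero])
      (fun g y => by
        rw [zpow_zero, one_smul]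
        change (powRep R n g (Pi.single i y.1), T g 0) = (Pi.single i (R g y.1), 0)
        rw [powRep_single, map_zero]) (x i, 0)
    exact h3
  · have h3 := lin_mem (ρ := ρ.prod τ) (χ := χ) (R := R.prod T) (ν := ν)
      (σ := (powRep ρ n).prod τ) (S := (powRep R n).prod T)
      ((LinearMap.inr k (Fin n → V) W).comp (LinearMap.snd k V W)) 0
      (fun g y => by
        rw [zpow_zero, one_smul]
        change (powRep ρ n g 0, τ g y.2) = (0, τ g y.2)
        rw [map_zero])
      (fun g y => by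
        rw [zpow_zero, one_smul]
        change (powRep R n g 0, T g y.2) = (0, T g y.2)
        rw [map_zero]) (0, w)
    exact h3

end pow

section h2

variable {V H₁ H₂ : Type} [AddCommGroup V] [Module k V] [AddCommGroup H₁] [Module k H₁]
  [AddCommGroup H₂] [Module k H₂] {Γ G : Type} [Group Γ] [Group G]

/-- The representation `H ^ 2 (A × Z)(1)`: the sum of `H ^ 2 (A)(1)`, the alternating forms on
`V = V_ℓ(A)`, of `(H ^ 1 (A) ⊗ H ^ 1 (Z))(1)`, the linear maps from `V` to `H ^ 1 (Z)`, and of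
`H ^ 2 (Z)(1)`, where `χ` is the cyclotomic character, `τ₁` is the action on `H ^ 1 (Z)` and `τ₂` is
the action on `H ^ 2 (Z)(1)`. -/
def h2Rep (ρ : Representation k Γ V) (χ : Γ →* k) (τ₁ : Representation k Γ H₁)
    (τ₂ : Representation k Γ H₂) :
    Representation k Γ ((V [⋀^Fin 2]→ₗ[k] k) × (V →ₗ[k] H₁) × H₂) where
  toFun g :=
    { toFun := fun x => (χ g • x.1.compLinearMap (ρ g⁻¹),
        χ g • ((τ₁ g).comp (x.2.1.comp (ρ g⁻¹))), τ₂ g x.2.2)
      map_add' := fun x y => by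
        refine Prod.ext ?_ (Prod.ext ?_ (map_add _ _ _))
        · ext v
          exact mul_add _ _ _
        · refine LinearMap.ext fun v => ?_
          change χ g • τ₁ g (x.2.1 _ + y.2.1 _) = χ g • τ₁ g (x.2.1 _) + χ g • τ₁ g (y.2.1 _)
          rw [map_add, smul_add]
      map_smul' := fun c x => by
        refine Prod.ext ?_ (Prod.ext ?_ (map_smul _ _ _))
        · ext v
          exact mul_left_comm _ _ _
        · refine LinearMap.ext fun v => ?_
          change χ g • τ₁ g (c • x.2.1 _) = c • χ g • τ₁ g (x.2.1 _)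
          rw [map_smul, smul_comm] }
  map_one' := by
    refine LinearMap.ext fun x => Prod.ext ?_ (Prod.ext ?_ ?_)
    · ext v
      change χ 1 * x.1 (fun i => ρ (1 : Γ)⁻¹ (v i)) = x.1 v
      rw [map_one, one_mul, inv_one, map_one]
      rfl
    · refine LinearMap.ext fun v => ?_
      change χ 1 • τ₁ 1 (x.2.1 (ρ (1 : Γ)⁻¹ v)) = x.2.1 v
      rw [map_one, one_smul, inv_one, map_one, map_one]
      rfl
    · change τ₂ 1 x.2.2 = x.2.2
      rw [map_one]
      rfl
  map_mul' g h := by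
    refine LinearMap.ext fun x => Prod.ext ?_ (Prod.ext ?_ ?_)
    · ext v
      change χ (g * h) * x.1 (fun i => ρ (g * h)⁻¹ (v i)) =
        χ g * (χ h * x.1 (fun i => ρ h⁻¹ (ρ g⁻¹ (v i))))
      rw [map_mul, mul_inv_rev, map_mul, mul_assoc]
      rfl
    · refine LinearMap.ext fun v => ?_
      change χ (g * h) • τ₁ (g * h) (x.2.1 (ρ (g * h)⁻¹ v)) =
        χ g • τ₁ g (χ h • τ₁ h (x.2.1 (ρ h⁻¹ (ρ g⁻¹ v))))
      rw [map_mul, mul_inv_rev, map_mul, map_mul, map_smul, mul_smul]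
      rfl
    · change τ₂ (g * h) x.2.2 = τ₂ g (τ₂ h x.2.2)
      rw [map_mul]
      rfl

/-- The alternating form given by two vectors. -/
def wedge (ω : V →ₗ[k] V →ₗ[k] k) (x y : V) : V [⋀^Fin 2]→ₗ[k] k where
  toFun u := ω x (u 0) * ω y (u 1) - ω x (u 1) * ω y (u 0)
  map_update_add' := by
    intro inst u i a b
    fin_cases i <;> simp <;> ring
  map_update_smul' := by
    intro inst u i a b
    fin_cases i <;> simp <;> ring
  map_eq_zero_of_eq' := by
    intro u i j h hij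
    have h1 : u 0 = u 1 := by
      fin_cases i <;> fin_cases j
      · exact absurd rfl hij
      · exact h
      · exact h.symm
      · exact absurd rfl hij
    rw [h1]
    ring

theorem wedge_apply (ω : V →ₗ[k] V →ₗ[k] k) (x y : V) (u : Fin 2 → V) :
    wedge ω x y u = ω x (u 0) * ω y (u 1) - ω x (u 1) * ω y (u 0) := rfl

/-- The bilinear map to `H ^ 2 (A)(1)`. -/
def map₁ (ω : V →ₗ[k] V →ₗ[k] k) : (V × H₁ × H₂) →ₗ[k] (V × H₁ × H₂) →ₗ[k]
    ((V [⋀^Fin 2]→ₗ[k] k) × (V →ₗ[k] H₁) × H₂) :=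
  LinearMap.mk₂ k (fun x y => (wedge ω x.1 y.1, 0, 0))
    (fun x x' y => by
      refine Prod.ext ?_ (by simp)
      ext u
      change wedge ω (x.1 + x'.1) y.1 u = wedge ω x.1 y.1 u + wedge ω x'.1 y.1 u
      simp only [wedge_apply, map_add, LinearMap.add_apply]
      ring)
    (fun c x y => by
      refine Prod.ext ?_ (by simp)
      ext u
      change wedge ω (c • x.1) y.1 u = c * wedge ω x.1 y.1 u
      simp only [wedge_apply, map_smul, LinearMap.smul_apply, smul_eq_mul]
      ring)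
    (fun x y y' => by
      refine Prod.ext ?_ (by simp)
      ext u
      change wedge ω x.1 (y.1 + y'.1) u = wedge ω x.1 y.1 u + wedge ω x.1 y'.1 u
      simp only [wedge_apply, map_add, LinearMap.add_apply]
      ring)
    (fun c x y => by
      refine Prod.ext ?_ (by simp)
      ext u
      change wedge ω x.1 (c • y.1) u = c * wedge ω x.1 y.1 u
      simp only [wedge_apply, map_smul, LinearMap.smul_apply, smul_eq_mul]
      ring)

/-- The bilinear map to the linear maps from `V` to `H ^ 1 (Z)`. -/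
def map₂ (ω : V →ₗ[k] V →ₗ[k] k) : (V × H₁ × H₂) →ₗ[k] (V × H₁ × H₂) →ₗ[k]
    ((V [⋀^Fin 2]→ₗ[k] k) × (V →ₗ[k] H₁) × H₂) :=
  LinearMap.mk₂ k (fun x y => (0, (ω x.1).smulRight y.2.1, 0))
    (fun x x' y => by
      refine Prod.ext (by simp) (Prod.ext ?_ (by simp))
      refine LinearMap.ext fun v => ?_
      change ω (x.1 + x'.1) v • y.2.1 = ω x.1 v • y.2.1 + ω x'.1 v • y.2.1
      rw [map_add, LinearMap.add_apply, add_smul])
    (fun c x y => by
      refine Prod.ext (by simp) (Prod.ext ?_ (by simp))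
      refine LinearMap.ext fun v => ?_
      change ω (c • x.1) v • y.2.1 = c • ω x.1 v • y.2.1
      rw [map_smul, LinearMap.smul_apply, smul_assoc])
    (fun x y y' => by
      refine Prod.ext (by simp) (Prod.ext ?_ (by simp))
      refine LinearMap.ext fun v => ?_
      change ω x.1 v • (y.2.1 + y'.2.1) = ω x.1 v • y.2.1 + ω x.1 v • y'.2.1
      rw [smul_add])
    (fun c x y => by
      refine Prod.ext (by simp) (Prod.ext ?_ (by simp))
      refine LinearMap.ext fun v => ?_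
      change ω x.1 v • (c • y.2.1) = c • ω x.1 v • y.2.1
      rw [smul_comm])

/-- The linear map to `H ^ 2 (Z)(1)`. -/
def map₃ : (V × H₁ × H₂) →ₗ[k] ((V [⋀^Fin 2]→ₗ[k] k) × (V →ₗ[k] H₁) × H₂) :=
  (LinearMap.inr k (V [⋀^Fin 2]→ₗ[k] k) ((V →ₗ[k] H₁) × H₂)).comp
    ((LinearMap.inr k (V →ₗ[k] H₁) H₂).comp
      ((LinearMap.snd k H₁ H₂).comp (LinearMap.snd k V (H₁ × H₂))))

theorem form_inv (ρ : Representation k Γ V) (χ : Γ →* k) (ω : V →ₗ[k] V →ₗ[k] k)
    (hω : ∀ s u v, ω (ρ s u) (ρ s v) = χ s * ω u v) (g : Γ) (x v : V) :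
    ω x (ρ g⁻¹ v) = (χ g)⁻¹ * ω (ρ g x) v := by
  have h1 := hω g x (ρ g⁻¹ v)
  have h2 : ρ g (ρ g⁻¹ v) = v := by
    rw [← Module.End.mul_apply, ← map_mul, mul_inv_cancel, map_one]
    rfl
  rw [h2] at h1
  rw [h1, ← mul_assoc, inv_mul_cancel₀ (char_ne χ g), one_mul]

variable (ρ : Representation k Γ V) (χ : Γ →* k) (τ₁ : Representation k Γ H₁)
  (τ₂ : Representation k Γ H₂) (ω : V →ₗ[k] V →ₗ[k] k)
  (hω : ∀ s u v, ω (ρ s u) (ρ s v) = χ s * ω u v)

include hω in
theorem map₁_inv (g : Γ) (x y : V × H₁ × H₂) :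
    h2Rep ρ χ τ₁ τ₂ g (map₁ ω x y) =
      χ g ^ (-1 : ℤ) • map₁ ω ((ρ.prod (τ₁.prod τ₂)) g x) ((ρ.prod (τ₁.prod τ₂)) g y) := by
  refine Prod.ext ?_ (Prod.ext ?_ ?_)
  · ext u
    change χ g * (ω x.1 (ρ g⁻¹ (u 0)) * ω y.1 (ρ g⁻¹ (u 1)) -
      ω x.1 (ρ g⁻¹ (u 1)) * ω y.1 (ρ g⁻¹ (u 0))) = χ g ^ (-1 : ℤ) *
      (ω (ρ g x.1) (u 0) * ω (ρ g y.1) (u 1) - ω (ρ g x.1) (u 1) * ω (ρ g y.1) (u 0))
    have h0 := char_ne χ g
    simp only [form_inv ρ χ ω hω, zpow_neg, zpow_one]
    field_simp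
  · refine LinearMap.ext fun v => ?_
    change χ g • τ₁ g 0 = χ g ^ (-1 : ℤ) • (0 : H₁)
    rw [map_zero, smul_zero, smul_zero]
  · change τ₂ g 0 = χ g ^ (-1 : ℤ) • (0 : H₂)
    rw [map_zero, smul_zero]

include hω in
theorem map₂_inv (g : Γ) (x y : V × H₁ × H₂) :
    h2Rep ρ χ τ₁ τ₂ g (map₂ ω x y) =
      χ g ^ (0 : ℤ) • map₂ ω ((ρ.prod (τ₁.prod τ₂)) g x) ((ρ.prod (τ₁.prod τ₂)) g y) := by
  rw [zpow_zero, one_smul]
  refine Prod.ext ?_ (Prod.ext ?_ ?_)
  · ext u
    change χ g * 0 = 0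
    rw [mul_zero]
  · refine LinearMap.ext fun v => ?_
    change χ g • τ₁ g (ω x.1 (ρ g⁻¹ v) • y.2.1) = ω (ρ g x.1) v • τ₁ g y.2.1
    rw [map_smul, smul_smul, form_inv ρ χ ω hω, ← mul_assoc, mul_inv_cancel₀ (char_ne χ g), one_mul]
  · change τ₂ g 0 = 0
    rw [map_zero]

theorem map₃_inv (g : Γ) (x : V × H₁ × H₂) :
    h2Rep ρ χ τ₁ τ₂ g (map₃ x) =
      χ g ^ (0 : ℤ) • map₃ ((ρ.prod (τ₁.prod τ₂)) g x) := by
  rw [zpow_zero, one_smul]
  refine Prod.ext ?_ (Prod.ext ?_ rfl)
  · ext u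
    change χ g * 0 = 0
    rw [mul_zero]
  · refine LinearMap.ext fun v => ?_
    change χ g • τ₁ g 0 = 0
    rw [map_zero, smul_zero]

theorem exists_dual [FiniteDimensional k V] (hnd : ∀ u, (∀ v, ω u v = 0) → u = 0) {ι : Type}
    (b : Basis ι k V) : ∃ f : ι → V, ∀ j v, ω (f j) v = b.coord j v := by
  have hinj : Function.Injective ω := by
    rw [injective_iff_map_eq_zero]
    intro u hu
    exact hnd u fun v => by rw [hu, LinearMap.zero_apply]
  have hsur : Function.Surjective ω := by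
    refine (LinearMap.injective_iff_surjective_of_finrank_eq_finrank ?_).1 hinj
    exact (Subspace.dual_finrank_eq (K := k) (V := V)).symm
  choose f hf using fun j => hsur (b.coord j)
  exact ⟨f, fun j v => by rw [hf]⟩

theorem h2_constructed [CharZero k] [FiniteDimensional k V]
    (hnd : ∀ u, (∀ v, ω u v = 0) → u = 0) (hω : ∀ s u v, ω (ρ s u) (ρ s v) = χ s * ω u v)
    (R : Representation k G V) (ν : G →* k) (T₁ : Representation k G H₁)
    (T₂ : Representation k G H₂) (hωR : ∀ s u v, ω (R s u) (R s v) = ν s * ω u v) :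
    IsConstructed (ρ.prod (τ₁.prod τ₂)) χ (R.prod (T₁.prod T₂)) ν (h2Rep ρ χ τ₁ τ₂)
      (h2Rep R ν T₁ T₂) := by
  change Submodule.span k (gens _ _ _ _ _ _) = ⊤
  rw [eq_top_iff]
  rintro ⟨B, f, z⟩ -
  let b := Module.finBasis k V
  obtain ⟨e, he⟩ := exists_dual ω hnd b
  have hsum : ∀ v : V, ∑ j, ω (e j) v • b j = v := fun v => by
    simp only [he, Basis.coord_apply]
    exact b.sum_repr v
  have hB : ((B, 0, 0) : (V [⋀^Fin 2]→ₗ[k] k) × (V →ₗ[k] H₁) × H₂) =
      ∑ i, ∑ j, (B ![b i, b j] / 2) • map₁ ω (e i, (0 : H₁), (0 : H₂)) (e j, 0, 0) := by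
    have h1 : B = ∑ i, ∑ j, (B ![b i, b j] / 2) • wedge ω (e i) (e j) := by
      ext u
      let ev : (V [⋀^Fin 2]→ₗ[k] k) →ₗ[k] k :=
        { toFun := fun B => B u, map_add' := fun _ _ => rfl, map_smul' := fun _ _ => rfl }
      have h2 : ∀ x y : V, B ![x, y] = ∑ i, ∑ j, B ![b i, b j] * (ω (e i) x * ω (e j) y) := by
        intro x y
        have h3 : bilOf B x y = B ![x, y] := rfl
        rw [← h3]
        conv_lhs => rw [← hsum x, ← hsum y]
        rw [map_sum (bilOf B), LinearMap.sum_apply]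
        refine Finset.sum_congr rfl fun i _ => ?_
        rw [map_sum]
        refine Finset.sum_congr rfl fun j _ => ?_
        rw [map_smul, map_smul, LinearMap.smul_apply, smul_eq_mul, smul_eq_mul]
        change _ * (_ * B ![b i, b j]) = _
        ring
      have h4 : B u = (B ![u 0, u 1] - B ![u 1, u 0]) / 2 := by
        have h5 : B ![u 1, u 0] = -B ![u 0, u 1] := by
          have h6 := B.map_swap ![u 0, u 1] (i := 0) (j := 1) (by decide)
          rw [← h6]
          congr 1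
          funext l
          fin_cases l <;> rfl
        have h7 : u = ![u 0, u 1] := by
          funext l
          fin_cases l <;> rfl
        rw [h5]
        conv_lhs => rw [h7]
        ring
      change B u = ev (∑ i, ∑ j, (B ![b i, b j] / 2) • wedge ω (e i) (e j))
      rw [h4, h2, h2, ← Finset.sum_sub_distrib, Finset.sum_div, map_sum]
      refine Finset.sum_congr rfl fun i _ => ?_
      rw [← Finset.sum_sub_distrib, Finset.sum_div, map_sum]
      refine Finset.sum_congr rfl fun j _ => ?_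
      rw [map_smul, smul_eq_mul]
      change _ = B ![b i, b j] / 2 *
        (ω (e i) (u 0) * ω (e j) (u 1) - ω (e i) (u 1) * ω (e j) (u 0))
      ring
    have h2 : ∀ x y : V, map₁ ω (x, (0 : H₁), (0 : H₂)) (y, 0, 0) =
        LinearMap.inl k _ _ (wedge ω x y) := fun x y => rfl
    simp only [h2, ← map_smul, ← map_sum]
    rw [← h1]
    rfl
  have hf : ((0, f, 0) : (V [⋀^Fin 2]→ₗ[k] k) × (V →ₗ[k] H₁) × H₂) =
      ∑ j, map₂ ω (e j, (0 : H₁), (0 : H₂)) (0, f (b j), 0) := by
    have h1 : f = ∑ j, (ω (e j)).smulRight (f (b j)) := by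
      refine LinearMap.ext fun v => ?_
      rw [LinearMap.sum_apply]
      conv_lhs => rw [← hsum v]
      rw [map_sum]
      refine Finset.sum_congr rfl fun j _ => ?_
      rw [map_smul]
      rfl
    have h2 : ∀ j, map₂ ω (e j, (0 : H₁), (0 : H₂)) (0, f (b j), 0) =
        ((LinearMap.inr k (V [⋀^Fin 2]→ₗ[k] k) ((V →ₗ[k] H₁) × H₂)).comp
          (LinearMap.inl k (V →ₗ[k] H₁) H₂)) ((ω (e j)).smulRight (f (b j))) := fun j => rfl
    simp only [h2, ← map_sum]
    rw [← h1]
    rfl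
  have hz : ((B, f, z) : (V [⋀^Fin 2]→ₗ[k] k) × (V →ₗ[k] H₁) × H₂) =
      (B, 0, 0) + (0, f, 0) + map₃ ((0 : V), (0 : H₁), z) := by
    refine Prod.ext ?_ (Prod.ext ?_ ?_)
    · change B = B + 0 + 0
      rw [add_zero, add_zero]
    · change f = 0 + f + 0
      rw [add_zero, zero_add]
    · change z = 0 + 0 + z
      rw [zero_add, zero_add]
  rw [hz, hB, hf]
  refine Submodule.add_mem _ (Submodule.add_mem _ (Submodule.sum_mem _ fun i _ =>
    Submodule.sum_mem _ fun j _ => Submodule.smul_mem _ _ (Submodule.subset_span ?_))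
    (Submodule.sum_mem _ fun j _ => Submodule.subset_span ?_)) (Submodule.subset_span ?_)
  · exact bil_mem _ (-1) (map₁_inv ρ χ τ₁ τ₂ ω hω) (map₁_inv R ν T₁ T₂ ω hωR) _ _
  · exact bil_mem _ 0 (map₂_inv ρ χ τ₁ τ₂ ω hω) (map₂_inv R ν T₁ T₂ ω hωR) _ _
  · exact lin_mem _ 0 (map₃_inv ρ χ τ₁ τ₂) (map₃_inv R ν T₁ T₂) _

end h2

section main

variable {V H₁ H₂ : Type} [AddCommGroup V] [Module k V] [AddCommGroup H₁] [Module k H₁]
  [AddCommGroup H₂] [Module k H₂] {Γ G : Type} [Group Γ] [Group G]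

/-- The form on `V ^ n`. -/
def powForm (ω : V →ₗ[k] V →ₗ[k] k) (n : ℕ) : (Fin n → V) →ₗ[k] (Fin n → V) →ₗ[k] k :=
  ∑ i, ω.compl₁₂ (LinearMap.proj i) (LinearMap.proj i)

theorem powForm_apply (ω : V →ₗ[k] V →ₗ[k] k) (n : ℕ) (x y : Fin n → V) :
    powForm ω n x y = ∑ i, ω (x i) (y i) := by
  unfold powForm
  rw [LinearMap.sum_apply, LinearMap.sum_apply]
  rfl

theorem powForm_nondeg {ω : V →ₗ[k] V →ₗ[k] k} (hnd : ∀ u, (∀ v, ω u v = 0) → u = 0) (n : ℕ)
    (x : Fin n → V) (hx : ∀ y, powForm ω n x y = 0) : x = 0 := by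
  funext i
  refine hnd _ fun v => ?_
  have h1 := hx (Pi.single i v)
  rw [powForm_apply, Finset.sum_eq_single i] at h1
  · rwa [Pi.single_eq_same] at h1
  · intro j _ hj
    rw [Pi.single_eq_of_ne hj, map_zero]
  · intro h
    exact absurd (Finset.mem_univ _) h

/-- From `V` and `W` to the second cohomology of `A ^ n × Z`. -/
theorem h2_fixes [CharZero k] [FiniteDimensional k V] (ρ : Representation k Γ V) (χ : Γ →* k)
    (τ₁ : Representation k Γ H₁) (τ₂ : Representation k Γ H₂) (R : Representation k G V)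
    (ν : G →* k) (T₁ : Representation k G H₁) (T₂ : Representation k G H₂)
    (ω : V →ₗ[k] V →ₗ[k] k) (hnd : ∀ u, (∀ v, ω u v = 0) → u = 0)
    (hω : ∀ s u v, ω (ρ s u) (ρ s v) = χ s * ω u v)
    (hωR : ∀ s u v, ω (R s u) (R s v) = ν s * ω u v)
    (h : FixesTateTensors (ρ.prod (τ₁.prod τ₂)) χ (R.prod (T₁.prod T₂)) ν) (n : ℕ) :
    FixesTateTensors (h2Rep (powRep ρ n) χ τ₁ τ₂) χ (h2Rep (powRep R n) ν T₁ T₂) ν :=
  fixes_of_constructed (h2_constructed (powRep ρ n) χ τ₁ τ₂ (powForm ω n)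
    (powForm_nondeg hnd n)
    (fun s u v => by
      rw [powForm_apply, powForm_apply, Finset.mul_sum]
      exact Finset.sum_congr rfl fun i _ => hω s _ _)
    (powRep R n) ν T₁ T₂
    (fun s u v => by
      rw [powForm_apply, powForm_apply, Finset.mul_sum]
      exact Finset.sum_congr rfl fun i _ => hωR s _ _))
    (fixes_of_constructed (pow_constructed ρ (τ₁.prod τ₂) χ R (T₁.prod T₂) ν n) h)

end main

end

end Pool.Agent.R855.MT.Constr
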