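import Mathlib
import Pool.Agent.Y144.MT.Cond
import Pool.Agent.TH118.CR.Torus

/-!
# Operators from several places

`X` is the rational Tate module of an abelian variety over an algebraically closed field `K`
containing `ℚ_ℓ`, with the action `R` of the Galois group `Γ` and the cyclotomic character `χ`.
-/

set_option autoImplicit false
set_option linter.unusedSectionVars false

namespace Pool.Agent.R855.MT

open Module TensorProduct Pool.Agent.Y126.Notions
open Pool.Agent.H204R3.SP Pool.Agent.H204R3.GP Pool.Agent.W522.U

noncomputable section

section defs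

variable {K X Γ : Type} [Field K] [AddCommGroup X] [Module K X] [Group Γ]

/-- The basis `b` consists of eigenvectors of an element `F` of the group (a Frobenius element at a
place of good or of bad reduction), with eigenvalues `a i`, and `s i = w (a i) - w (χ F) / 2` for some
homomorphism `w` from the multiplicative group of `K` to its additive group. For instance `w` is a
`p`-adic valuation with `w (χ F) = 1`; then the numbers `s i + 1 / 2` are the slopes of `F`. -/
def IsGrading (R : Representation K Γ X) (χ : Γ →* K) {n : ℕ} (b : Basis (Fin n) K X)
    (s : Fin n → K) : Prop :=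
  ∃ (F : Γ) (a : Fin n → Kˣ) (c : Kˣ) (w : Additive Kˣ →+ K),
    (∀ i, R F (b i) = (a i : K) • b i) ∧ (c : K) = χ F ∧
    ∀ i, s i = w (Additive.ofMul (a i)) - w (Additive.ofMul c) / 2

/-- The operator that multiplies `b i` by `s i`. -/
def gradingOperator {n : ℕ} (b : Basis (Fin n) K X) (s : Fin n → K) : Module.End K X :=
  b.constr K fun i => s i • b i

/-- The component of degree `d` of the operator `y`: the sum over all `t` of `p (t + d) y p t`, where
`p t` is the projection to the span of the `b i` with `s i = t`. In terms of the matrix of `y` in the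
basis `b`, the entries `(i, j)` with `s i ≠ s j + d` are replaced by zero. -/
def component {n : ℕ} (b : Basis (Fin n) K X) (s : Fin n → K) (d : K) (y : Module.End K X) :
    Module.End K X :=
  open Classical in
  Matrix.toLin b b (Matrix.of fun i j => if s i = s j + d then LinearMap.toMatrix b b y i j else 0)

/-- The operators built from the local monodromy operators at places of bad semistable reduction and the
slope operators of Frobenius elements, with linear combinations, commutators and components. -/
inductive IsLocal (R : Representation K Γ X) (χ : Γ →* K) : Module.End K X → Prop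
  | inertia (γ : Γ) (h : (R γ - 1) * (R γ - 1) = 0) : IsLocal R χ (R γ - 1)
  | slope {n : ℕ} (b : Basis (Fin n) K X) (s : Fin n → K) (h : IsGrading R χ b s) :
      IsLocal R χ (gradingOperator b s)
  | component {n : ℕ} (b : Basis (Fin n) K X) (s : Fin n → K) (h : IsGrading R χ b s) (d : K)
      (y : Module.End K X) (hy : IsLocal R χ y) : IsLocal R χ (component b s d y)
  | add (x y : Module.End K X) (hx : IsLocal R χ x) (hy : IsLocal R χ y) : IsLocal R χ (x + y)
  | smul (t : K) (x : Module.End K X) (hx : IsLocal R χ x) : IsLocal R χ (t • x)
  | commutator (x y : Module.End K X) (hx : IsLocal R χ x) (hy : IsLocal R χ y) :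
      IsLocal R χ (x * y - y * x)

/-- The number `d` is a *defect* of the operator `N` on `U`: the rank of `N` on `U`, or the algebraic
multiplicity on `U` of a nonzero eigenvalue of `N N'`, for a local operator `N'` with `N' ^ 2 = 0`. -/
def IsDefect (R : Representation K Γ X) (χ : Γ →* K) (U : Submodule K X) (N : Module.End K X)
    (d : ℕ) : Prop :=
  d = finrank K (U.map N) ∨
    ∃ N' : Module.End K X, IsLocal R χ N' ∧ N' * N' = 0 ∧ ∃ a : K, a ≠ 0 ∧
      d = finrank K (Module.End.maxGenEigenspace (N * N') a ⊓ U : Submodule K X)

/-- There is a local operator `N` with `N ^ 2 = 0` such that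

* the defects of `N` on `U` have no common prime factor, or
* `U` is symplectic and a defect is two, or
* `U` is symplectic, the weak Hodge elements generate and a defect is odd, or
* `U` is symplectic, a defect is prime to the dimension of `U`, and there is an ordinary slope
  operator. -/
def HasLocalOperators (R : Representation K Γ X) (χ : Γ →* K) (U : Submodule K X) : Prop :=
  ∃ N : Module.End K X, IsLocal R χ N ∧ N * N = 0 ∧
    ((∀ p : ℕ, p.Prime → ∃ d, IsDefect R χ U N d ∧ ¬ p ∣ d) ∨
      (IsSymplectic R χ U ∧ ∃ d, IsDefect R χ U N d ∧
        (d = 2 ∨ (Odd d ∧ WeakHodgeGenerate R χ) ∨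
          (Nat.Coprime d (finrank K U) ∧
            ∃ x, Pool.Agent.Y144.MT.IsOrdinarySlopeOperator R χ x))))

end defs

section lemmas

variable {K : Type} [Field K] [CharZero K] {X : Type} [AddCommGroup X] [Module K X]
  [FiniteDimensional K X] {Γ : Type} [Group Γ] {R : Representation K Γ X} {χ : Γ →* K}

/-- The grading operator is in the Lie algebra. -/
theorem grading_mem {n : ℕ} {b : Basis (Fin n) K X} {s : Fin n → K} (h : IsGrading R χ b s) :
    gradingOperator b s ∈ lieT R χ := by
  classical
  obtain ⟨F, a, c, w, hF, hc, hs⟩ := h
  have h1 := Pool.Agent.TH118.CR.dg_mem R χ F b a hF c hc w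
  have h2 : gradingOperator b s = Pool.Agent.TH118.CR.dg b
      (fun k => w (Additive.ofMul (a k)) - w (Additive.ofMul c) / 2) := by
    refine b.ext fun i => ?_
    rw [Pool.Agent.TH118.CR.dg_basis, gradingOperator, Basis.constr_basis, hs]
  rw [h2]
  exact h1

/-- Multiplication of the matrix entries by the values of a polynomial. -/
def tw {n : ℕ} (b : Basis (Fin n) K X) (s : Fin n → K) (y : Module.End K X) (p : Polynomial K) :
    Module.End K X :=
  Matrix.toLin b b (Matrix.of fun i j => p.eval (s i - s j) * LinearMap.toMatrix b b y i j)

theorem tw_mem {n : ℕ} (b : Basis (Fin n) K X) (s : Fin n → K) (y : Module.End K X)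
    (L : Submodule K (Module.End K X)) (hbr : ∀ x ∈ L, ∀ y ∈ L, x * y - y * x ∈ L)
    (hx : gradingOperator b s ∈ L) (hy : y ∈ L) (p : Polynomial K) : tw b s y p ∈ L := by
  classical
  induction p using Polynomial.induction_on' with
  | add p q hp hq =>
    have h1 : tw b s y (p + q) = tw b s y p + tw b s y q := by
      unfold tw
      rw [← map_add]
      congr 1
      ext i j
      simp [add_mul]
    rw [h1]
    exact L.add_mem hp hq
  | monomial k t =>
    induction k with
    | zero =>
      have h1 : tw b s y (Polynomial.monomial 0 t) = t • y := by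
        unfold tw
        have h2 : (Matrix.of fun i j => (Polynomial.monomial 0 t).eval (s i - s j) *
            LinearMap.toMatrix b b y i j) = t • LinearMap.toMatrix b b y := by
          ext i j
          simp
        rw [h2, map_smul, Matrix.toLin_toMatrix]
      rw [h1]
      exact L.smul_mem _ hy
    | succ k ih =>
      have h1 : tw b s y (Polynomial.monomial (k + 1) t) =
          gradingOperator b s * tw b s y (Polynomial.monomial k t) -
            tw b s y (Polynomial.monomial k t) * gradingOperator b s := by
        apply (LinearMap.toMatrix b b).injective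
        have h3 : LinearMap.toMatrix b b (gradingOperator b s) = Matrix.diagonal s := by
          ext i j
          rw [LinearMap.toMatrix_apply, gradingOperator, Basis.constr_basis, map_smul,
            Basis.repr_self, Finsupp.smul_single, smul_eq_mul, mul_one, Matrix.diagonal_apply,
            Finsupp.single_apply]
          by_cases hij : j = i
          · subst hij
            simp
          · rw [if_neg hij, if_neg (fun h => hij h.symm)]
        rw [map_sub, LinearMap.toMatrix_mul, LinearMap.toMatrix_mul, h3]
        unfold tw
        rw [LinearMap.toMatrix_toLin, LinearMap.toMatrix_toLin]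
        ext i j
        rw [Matrix.sub_apply, Matrix.diagonal_mul, Matrix.mul_diagonal, Matrix.of_apply,
          Matrix.of_apply, Polynomial.eval_monomial, Polynomial.eval_monomial]
        ring
      rw [h1]
      exact hbr _ hx _ ih

theorem component_mem {n : ℕ} (b : Basis (Fin n) K X) (s : Fin n → K) (y : Module.End K X)
    (L : Submodule K (Module.End K X)) (hbr : ∀ x ∈ L, ∀ y ∈ L, x * y - y * x ∈ L)
    (hx : gradingOperator b s ∈ L) (hy : y ∈ L) (d : K) : component b s d y ∈ L := by
  classical
  let D : Finset K := insert d (Finset.univ.image fun ij : Fin n × Fin n => s ij.1 - s ij.2)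
  have h1 : component b s d y = tw b s y (Lagrange.basis D id d) := by
    unfold component tw
    congr 1
    ext i j
    rw [Matrix.of_apply, Matrix.of_apply]
    have hij : s i - s j ∈ D :=
      Finset.mem_insert_of_mem (Finset.mem_image.2 ⟨(i, j), Finset.mem_univ _, rfl⟩)
    have hd : d ∈ D := Finset.mem_insert_self _ _
    by_cases h : s i = s j + d
    · rw [if_pos h]
      have h2 : s i - s j = d := by rw [h]; ring
      rw [h2]
      have h3 := Lagrange.eval_basis_self (s := D) (v := id) (i := d) (Set.injOn_id _) hd
      rw [id] at h3
      rw [h3, one_mul]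
    · rw [if_neg h]
      have h2 : d ≠ s i - s j := fun h' => h (by rw [h']; ring)
      have h3 := Lagrange.eval_basis_of_ne (s := D) (v := id) h2 hij
      rw [id] at h3
      rw [h3, zero_mul]
  rw [h1]
  exact tw_mem b s y L hbr hx hy _

/-- Local operators are in the Lie algebra. -/
theorem local_mem (ω : X →ₗ[K] X →ₗ[K] K) (hnd : ∀ u, (∀ v, ω u v = 0) → u = 0)
    (hωR : ∀ g u v, ω (R g u) (R g v) = χ g * ω u v) {y : Module.End K X}
    (h : IsLocal R χ y) : y ∈ lieT R χ := by
  have hbr : ∀ X' ∈ lieT R χ, ∀ Y ∈ lieT R χ, X' * Y - Y * X' ∈ lieT R χ :=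
    fun _ h _ h' => lieT_bracket R χ h h'
  induction h with
  | inertia γ h =>
    by_cases h0 : ∀ x, (R γ - 1) x = 0
    · have h1 : R γ - 1 = 0 := LinearMap.ext h0
      rw [h1]
      exact (lieT R χ).zero_mem
    · push Not at h0
      obtain ⟨x, hx⟩ := h0
      exact unip_lieT R χ γ h (unip_chi ω hnd hωR γ h hx)
  | slope b s h => exact grading_mem h
  | component b s h d y hy ih => exact component_mem b s y _ hbr (grading_mem h) ih d
  | add x y hx hy ihx ihy => exact (lieT R χ).add_mem ihx ihy
  | smul t x hx ih => exact (lieT R χ).smul_mem _ ih
  | commutator x y hx hy ihx ihy => exact hbr _ ihx _ ihy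

end lemmas

end

end Pool.Agent.R855.MT
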