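import Mathlib
import Pool.Agent.R855.MT.Loc

/-!
# Square-zero elements of rank one from several places
-/

set_option autoImplicit false
set_option linter.unusedSectionVars false

namespace Pool.Agent.R855.MT

open Module TensorProduct Pool.Agent.Y126.Notions
open Pool.Agent.H204R3.SP Pool.Agent.H204R3.GP Pool.Agent.W522.U
open Pool.Agent.W528.Odd Pool.Agent.Y126.OT Pool.Agent.TH118.CR Pool.Agent.Y126.Toric

noncomputable section

variable {K : Type} [Field K] [CharZero K] {X : Type} [AddCommGroup X] [Module K X]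
  [FiniteDimensional K X] {Γ : Type} [Group Γ] {R : Representation K Γ X} {χ : Γ →* K}
  (ω : X →ₗ[K] X →ₗ[K] K) (hnd : ∀ u, (∀ v, ω u v = 0) → u = 0)
  (hωR : ∀ g u v, ω (R g u) (R g v) = χ g * ω u v) (hss : HasProj R) {U : Submodule K X}
  (hU : SI R U)

include hnd hωR hss hU in
/-- The defects on `U`. -/
theorem defect_local {N₀ : Module.End K X} {N : Module.End K U}
    (hNx : ∀ u : U, ((N u : U) : X) = N₀ u) {d : ℕ} (hd : IsDefect R χ U N₀ d) :
    Defect (resL R χ U) N d := by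
  rcases hd with hd | ⟨N', hN', hN2, a, ha, hd⟩
  · exact Or.inl (by rw [rk_res hNx, hd])
  · right
    have hN1 : N' ∈ lieT R χ := local_mem ω hnd hωR hN'
    have hst := lieT_stable ω hnd hωR hss hU.2.1 hN1
    refine ⟨N'.restrict hst, ⟨_, hN1, fun u => rfl⟩, ?_, a, ha, ?_⟩
    · have h3 := sq_res (Y := N'.restrict hst) (fun u => rfl) 0 (by rw [hN2, zero_smul])
      rw [h3, zero_smul]
    · rw [hd]
      refine (mult_res (Y := N * N'.restrict hst) (fun u => ?_) a).symm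
      rw [Module.End.mul_apply, hNx, Module.End.mul_apply]
      rfl

theorem mge_zero {K Y : Type} [Field K] [AddCommGroup Y] [Module K Y] {l : K} (hl : l ≠ 0) :
    (0 : Module.End K Y).maxGenEigenspace l = ⊥ := by
  rw [eq_bot_iff]
  intro w hw
  rw [Module.End.mem_maxGenEigenspace] at hw
  obtain ⟨k, hk⟩ := hw
  rw [zero_sub] at hk
  have h3 : (-(l • (1 : Module.End K Y))) ^ k = ((-l) ^ k) • (1 : Module.End K Y) := by
    rw [← neg_smul, smul_pow, one_pow]
  rw [h3, LinearMap.smul_apply, Module.End.one_apply] at hk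
  exact (smul_eq_zero.1 hk).resolve_left (pow_ne_zero _ (neg_ne_zero.2 hl))

/-- The defects of the zero operator are zero. -/
theorem defect_zero {U : Submodule K X} {d : ℕ} {𝔥 : Submodule K (Module.End K U)}
    (h : Defect 𝔥 (0 : Module.End K U) d) : d = 0 := by
  rcases h with rfl | ⟨N', -, -, l, hl, rfl⟩
  · exact rk_eq_zero.2 rfl
  · rw [zero_mul, mge_zero hl, finrank_bot]

include hnd hωR hss hU in
/-- If `N` is zero on `U` the defects are zero. -/
theorem defect_of_bot {N₀ : Module.End K X} (h0 : U.map N₀ = ⊥) {d : ℕ}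
    (hd : IsDefect R χ U N₀ d) : d = 0 := by
  refine defect_zero (𝔥 := resL R χ U)
    (defect_local ω hnd hωR hss hU (N := 0) (fun u => ?_) hd)
  have h1 : N₀ u ∈ U.map N₀ := Submodule.mem_map_of_mem u.2
  rw [h0, Submodule.mem_bot] at h1
  rw [h1]
  rfl

variable [IsAlgClosed K]

include hnd hωR hss hU in
theorem one_of_local (h : HasLocalOperators R χ U) :
    ∃ e ∈ lieT R χ, e * e = 0 ∧ finrank K (U.map e) = 1 := by
  have hP' : Pool.Agent.Y126.Notions.WeakHodgeGenerate R χ →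
      Pool.Agent.W528.Odd.WeakHodgeGenerate R χ :=
    fun h P hP => h P fun x hx => hP x hx.2 hx.1
  obtain ⟨Δ, hΔ, hUΔ⟩ := id hU.2.1
  obtain ⟨N₀, hloc, hN2, hcase⟩ := h
  have hN : N₀ ∈ lieT R χ := local_mem ω hnd hωR hloc
  have hst := lieT_stable ω hnd hωR hss hU.2.1 hN
  obtain ⟨N, hNd⟩ : ∃ N : Module.End K U, N = N₀.restrict hst := ⟨_, rfl⟩
  have hNx : ∀ u : U, ((N u : U) : X) = N₀ u := fun u => by rw [hNd]; rfl
  have hNN : N * N = 0 := by
    have h3 := sq_res hNx 0 (by rw [hN2, zero_smul])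
    rw [h3, zero_smul]
  have hNm : N ∈ resL R χ U := ⟨_, hN, hNx⟩
  rcases hcase with hd | ⟨halt, d, hd, hd2⟩
  · have hN0 : U.map N₀ ≠ ⊥ := by
      intro h0
      obtain ⟨d, hd, h2⟩ := hd 2 Nat.prime_two
      apply h2
      rw [defect_of_bot ω hnd hωR hss hU h0 hd]
      exact dvd_zero 2
    obtain ⟨e, he, he2, Y, hY, hYe, hY2, hY0, hext⟩ := exists_ext ω hnd hωR hss hU hN hN2 hN0
    refine ⟨e, he, he2, ?_⟩
    rw [← rk_res hYe]
    refine extremal_rank_one (resR R Δ U hUΔ) (sIrr_res hU Δ hΔ hUΔ) resL_br (resL_conj Δ hUΔ)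
      (N := N) hNm hNN ?_ hY hY2 hY0 hext
    intro p hp
    obtain ⟨d, hd, hpd⟩ := hd p hp
    exact ⟨d, defect_local ω hnd hωR hss hU hNx hd, hpd⟩
  · have h2 : 2 ≤ finrank K U := altDual_two_le halt
    have hd0 : d ≠ 0 := by
      rintro rfl
      rcases hd2 with h | ⟨h, -⟩ | ⟨h, -⟩
      · omega
      · exact absurd h (by decide)
      · rw [Nat.coprime_zero_left] at h
        omega
    have hN0 : U.map N₀ ≠ ⊥ := fun h0 => hd0 (defect_of_bot ω hnd hωR hss hU h0 hd)
    obtain ⟨n, hn, hn2, hrk, -⟩ := defect_elt (resR R Δ U hUΔ) (sIrr_res hU Δ hΔ hUΔ) resL_br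
      (resL_conj Δ hUΔ) hNm hNN (defect_local ω hnd hωR hss hU hNx hd)
    refine one_of_alt_gen ω hnd hωR hss hU halt hN hN2 hN0 hn hn2 hrk hd0 ?_
    rcases hd2 with h | ⟨h, hP⟩ | ⟨h, x, hx⟩
    · exact Or.inl h
    · exact Or.inr (Or.inl ⟨h, hP' hP⟩)
    · obtain ⟨hx1, hx2⟩ := Pool.Agent.Y144.MT.slope_spec hx
      exact Or.inr (Or.inr ⟨h, x, hx1, hx2⟩)

end

end Pool.Agent.R855.MT
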