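import Mathlib
import Pool.Agent.R855.MT.One
import Pool.Agent.Y144.QF.Glue
import Pool.Agent.Y144.QF.Alt

/-!
# Common `ℚ`-form of the monodromy groups from several places
-/

set_option autoImplicit false
set_option linter.unusedSectionVars false
set_option linter.deprecated false

namespace Pool.Agent.R855.MT.QF

open Module Pool.Agent.H204R3.SP Pool.Agent.H204R3.GP Pool.Agent.W522.U
open Pool.Agent.W528.Odd Pool.Agent.Y126.OT Pool.Agent.TH118.CR
open Pool.Agent.W528.Tor (AltDual)
open Pool.Agent.Y126.Toric (mult_res altDual_two_le)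
open Pool.Agent.Y144.QF Pool.Agent.R855.MT

noncomputable section

section general

variable {K : Type} [Field K] [CharZero K] {X : Type} [AddCommGroup X] [Module K X]
  [FiniteDimensional K X] {Γ : Type} [Group Γ] {R : Representation K Γ X} {χ : Γ →* K}
  {ω : X →ₗ[K] X →ₗ[K] K} {L : Submodule K (Module.End K X)}

/-- Local operators are in the Lie algebra. -/
theorem local_mem' (hL : IsLie ω R L)
    (hgr : ∀ {n : ℕ} (b : Basis (Fin n) K X) (s : Fin n → K), IsGrading R χ b s →
      gradingOperator b s ∈ L) {y : Module.End K X} (h : IsLocal R χ y) : y ∈ L := by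
  induction h with
  | inertia γ h => exact hL.unip γ h
  | slope b s h => exact hgr b s h
  | component b s h d y hy ih => exact component_mem b s y _ hL.br (hgr b s h) ih d
  | add x y hx hy ihx ihy => exact L.add_mem ihx ihy
  | smul t x hx ih => exact L.smul_mem _ ih
  | commutator x y hx hy ihx ihy => exact hL.br _ ihx _ ihy

theorem defect_local' (hL : IsLie ω R L)
    (hgr : ∀ {n : ℕ} (b : Basis (Fin n) K X) (s : Fin n → K), IsGrading R χ b s →
      gradingOperator b s ∈ L) (hss : HasProj R) {U : Submodule K X} (hU : SI R U)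
    {N₀ : Module.End K X} {N : Module.End K U}
    (hNx : ∀ u : U, ((N u : U) : X) = N₀ u) {d : ℕ} (hd : IsDefect R χ U N₀ d) :
    Defect (resL L U) N d := by
  rcases hd with hd | ⟨N', hN', hN2, a, ha, hd⟩
  · exact Or.inl (by rw [rk_res hNx, hd])
  · right
    have hN1 : N' ∈ L := local_mem' hL hgr hN'
    have hst := hL.stable hss hU.2.1 hN1
    refine ⟨N'.restrict hst, ⟨_, hN1, fun u => rfl⟩, ?_, a, ha, ?_⟩
    · have h3 := sq_res (Y := N'.restrict hst) (fun u => rfl) 0 (by rw [hN2, zero_smul])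
      rw [h3, zero_smul]
    · rw [hd]
      refine (mult_res (Y := N * N'.restrict hst) (fun u => ?_) a).symm
      rw [Module.End.mul_apply, hNx, Module.End.mul_apply]
      rfl

theorem one_of_local' [IsAlgClosed K] (hL : IsLie ω R L)
    (hgr : ∀ {n : ℕ} (b : Basis (Fin n) K X) (s : Fin n → K), IsGrading R χ b s →
      gradingOperator b s ∈ L) (hnd : ∀ u, (∀ v, ω u v = 0) → u = 0)
    (hωR : ∀ g u v, ω (R g u) (R g v) = χ g * ω u v) (hss : HasProj R) {U : Submodule K X}
    (hU : SI R U) (halt : AltDual R χ U) (hP : HodgeGen R L) {N₀ : Module.End K X}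
    (hloc : IsLocal R χ N₀) (hN2 : N₀ * N₀ = 0) {d : ℕ} (hd : IsDefect R χ U N₀ d)
    (hd2 : d = 2 ∨ Odd d) : ∃ e ∈ L, e * e = 0 ∧ finrank K (U.map e) = 1 := by
  obtain ⟨Δ, hΔ, hUΔ⟩ := id hU.2.1
  have hN : N₀ ∈ L := local_mem' hL hgr hloc
  have hst := hL.stable hss hU.2.1 hN
  obtain ⟨N, hNd⟩ : ∃ N : Module.End K U, N = N₀.restrict hst := ⟨_, rfl⟩
  have hNx : ∀ u : U, ((N u : U) : X) = N₀ u := fun u => by rw [hNd]; rfl
  have hNN : N * N = 0 := by
    have h3 := sq_res hNx 0 (by rw [hN2, zero_smul])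
    rw [h3, zero_smul]
  have hNm : N ∈ resL L U := ⟨_, hN, hNx⟩
  have hd0 : d ≠ 0 := by
    rintro rfl
    rcases hd2 with h | h
    · omega
    · exact absurd h (by decide)
  have hdef := defect_local' hL hgr hss hU hNx hd
  have hN0 : U.map N₀ ≠ ⊥ := by
    intro h0
    have h1 : N = 0 := by
      refine LinearMap.ext fun u => Subtype.ext ?_
      have h2 : N₀ u ∈ U.map N₀ := Submodule.mem_map_of_mem u.2
      rw [h0, Submodule.mem_bot] at h2
      rw [hNx, h2]
      rfl
    rw [h1] at hdef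
    exact hd0 (defect_zero hdef)
  obtain ⟨n, hn, hn2, hrk, -⟩ := defect_elt (resR R Δ U hUΔ) (sIrr_res hU Δ hΔ hUΔ) hL.resL_br
    (hL.resL_conj Δ hUΔ) hNm hNN hdef
  exact Pool.Agent.Y144.QF.one_of_alt_gen hL hnd hωR hss hU halt hN hN2 hN0 hn hn2 hrk hd0
    (hd2.imp_right fun h => Or.inl ⟨h, hP⟩)

end general

open MvPolynomial TensorProduct Pool.Agent.W528.ZC

section lie

variable {K : Type} [Field K] [CharZero K] {ι : Type} [Fintype ι] [DecidableEq ι]
  {Γ : Type} [Group Γ] {R : Representation K Γ (ι → K)}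
  {ω : (ι → K) →ₗ[K] (ι → K) →ₗ[K] K} {χ : Γ →* K}

/-- The grading operators are in the Lie algebra. -/
theorem grading_HZ (hω : ∀ s u v, ω (R s u) (R s v) = χ s * ω u v) {n : ℕ}
    (b : Basis (Fin n) K (ι → K)) (s : Fin n → K) (h : IsGrading R χ b s) :
    gradingOperator b s ∈ HZ ω R := by
  obtain ⟨F, a, c, w, hF, hc, hs⟩ := h
  have hx : ∀ i, gradingOperator b s (b i) = s i • b i := fun i => by
    rw [gradingOperator, Basis.constr_basis]
  refine ⟨⟨w (Additive.ofMul c) / 2, ?_⟩, ?_⟩
  · refine slope_Lg F b a w hF fun i => ?_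
    rw [LinearMap.add_apply, hx, LinearMap.smul_apply, Module.End.one_apply, ← add_smul]
    congr 1
    rw [hs]
    ring
  · have key : ∀ i j, ω (gradingOperator b s (b i)) (b j) +
        ω (b i) (gradingOperator b s (b j)) = 0 := by
      intro i j
      rw [hx, hx, map_smul, map_smul, LinearMap.smul_apply, smul_eq_mul, smul_eq_mul, ← add_mul]
      by_cases h0 : ω (b i) (b j) = 0
      · rw [h0, mul_zero]
      · have h1 := hω F (b i) (b j)
        rw [hF, hF, map_smul, map_smul, LinearMap.smul_apply, smul_eq_mul, smul_eq_mul,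
          ← mul_assoc] at h1
        have h2 := mul_right_cancel₀ h0 h1
        have h3 : a i * a j = c := Units.ext (by rw [Units.val_mul, hc, ← h2, mul_comm])
        have h4 : w (Additive.ofMul (a i)) + w (Additive.ofMul (a j)) =
            w (Additive.ofMul c) := by
          rw [← map_add, ← ofMul_mul, h3]
        have h5 : s i + s j = 0 := by
          rw [hs, hs, ← h4]
          ring
        rw [h5, zero_mul]
    intro u v
    rw [← b.sum_repr u, ← b.sum_repr v]
    simp only [map_sum, map_smul, LinearMap.sum_apply, LinearMap.smul_apply, smul_eq_mul]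
    rw [← Finset.sum_add_distrib]
    refine Finset.sum_eq_zero fun i _ => ?_
    rw [← mul_add, ← Finset.sum_add_distrib]
    refine mul_eq_zero_of_right _ (Finset.sum_eq_zero fun j _ => ?_)
    rw [← mul_add, key, mul_zero]

end lie

section known

variable {k : Type} [Field k] [CharZero k] {ι : Type} [Fintype ι] [DecidableEq ι] {Γ : Type}
  [Group Γ] {Ω : Type} [Field Ω] [Algebra k Ω] [CharZero Ω] [Algebra.IsAlgebraic k Ω]
  {ρ : Γ →* Matrix ι ι k} {χ : Γ →* k} {ψ : Matrix ι ι k}
  [IsAlgClosed Ω] {E : Set (Matrix ι ι k)}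

/-- From local operators to rank one operators. -/
theorem hasOne_of_local (hψ : IsUnit ψ.det) (h : Known Ω ρ χ ψ E)
    (H : ∀ U, SI (repM ρ Ω) U → AltDual (repM ρ Ω) ((algebraMap k Ω).toMonoidHom.comp χ) U ∧
      ∃ N, IsLocal (repM ρ Ω) ((algebraMap k Ω).toMonoidHom.comp χ) N ∧ N * N = 0 ∧
        ∃ d, IsDefect (repM ρ Ω) ((algebraMap k Ω).toMonoidHom.comp χ) U N d ∧
          (d = 2 ∨ Odd d)) :
    HasOne (om Ω ψ) (repM ρ Ω) ((algebraMap k Ω).toMonoidHom.comp χ) := by
  have hnd := om_nondeg (Ω := Ω) hψ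
  have hω := om_inv (Ω := Ω) h.form
  intro U hU
  obtain ⟨halt, N, hloc, hN2, d, hd, hd2⟩ := H U hU
  exact ⟨halt, one_of_local' (isLie_HZ hnd hω) (fun b s hbs => grading_HZ hω b s hbs) hnd hω
    (hasProj_repM ρ h.semi) hU halt (hodgeGen_HZ (hodge_iff ρ _ h.pink)) hloc hN2 hd hd2⟩

end known

end

end Pool.Agent.R855.MT.QF
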