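import Mathlib
import Pool.Agent.R855.MT.QF
import Pool.Agent.R930.K3

/-!
# Square-zero operators of rank one from one place with three slopes
-/

set_option autoImplicit false
set_option linter.unusedSectionVars false
set_option linter.deprecated false

namespace Pool.Agent.R855.MT.QF

open Module Pool.Agent.H204R3.SP Pool.Agent.H204R3.GP Pool.Agent.W522.U
open Pool.Agent.W528.Odd Pool.Agent.TH118.CR
open Pool.Agent.W528.Tor (AltDual)
open Pool.Agent.Y126.Toric (mult_res altDual_two_le)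
open Pool.Agent.Y144.QF Pool.Agent.R855.MT
open Pool.Agent.R930 (fp fm f0 fp_fp fm_fm f0_f0 fp_fm fm_fp f_add f_sub fp_fm_mem exists_deg_one f_res
  h3_res trace_range exists_yp)

noncomputable section

section piece

variable {K : Type} [Field K] [CharZero K] {X : Type} [AddCommGroup X] [Module K X]
  [FiniteDimensional K X] {Γ : Type} [Group Γ] {R : Representation K Γ X} {χ : Γ →* K}
  {ω : X →ₗ[K] X →ₗ[K] K} {L : Submodule K (Module.End K X)} (hL : IsLie ω R L)
  (hnd : ∀ u, (∀ v, ω u v = 0) → u = 0)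
  (hωR : ∀ g u v, ω (R g u) (R g v) = χ g * ω u v) (hss : HasProj R) {U : Submodule K X}
  (hU : SI R U)

include hL hnd hωR hss hU in
/-- The form on a symplectic subspace. -/
theorem exists_om' (halt : AltDual R χ U) : ∃ om : U →ₗ[K] U →ₗ[K] K, (∀ v, om v v = 0) ∧
    (∀ u, (∀ v, om u v = 0) → u = 0) ∧
    ∀ Y ∈ resL L U, ∀ u w, om (Y u) w + om u (Y w) = 0 := by
  obtain ⟨Δ₂, hΔ₂, B, hB0, hBalt, hB⟩ := id halt
  obtain ⟨om, hom⟩ : ∃ om : U →ₗ[K] U →ₗ[K] K, om = B.compl₁₂ U.subtype U.subtype := ⟨_, rfl⟩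
  have hom' : ∀ u v : U, om u v = B u v := fun u v => by rw [hom]; rfl
  refine ⟨om, fun v => by rw [hom']; exact hBalt v v.2, ?_, ?_⟩
  · intro u hu
    apply Subtype.ext
    exact du_left hU hU.2.1 hΔ₂ hB0 hB u u.2 (fun v hv => by
      have := hu ⟨v, hv⟩
      rwa [hom'] at this)
  · rintro Y ⟨y, hy, hYy⟩ u w
    rw [hom', hom', hYy, hYy]
    exact hL.skewB hnd hωR hss hU.2.1 hΔ₂ B hB hy u u.2 w w.2

variable [IsAlgClosed K] {D : Module.End K X} (hD : D ∈ L) (h3 : D * D * D = (1 / 4 : K) • D)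
  {DU : Module.End K U} (hDU : ∀ u : U, ((DU u : U) : X) = D u)

include hL hD h3 hDU in
theorem exists_global3' {y : Module.End K U} (hy : y ∈ resL L U) (hne : fp DU * y * fm DU ≠ 0) :
    ∃ N ∈ L, N * N = 0 ∧ U.map N ≠ ⊥ ∧ (fp DU * y * fm DU) ∈ resL L U ∧
      finrank K (U.map N) = rk (fp DU * y * fm DU) := by
  obtain ⟨y₀, hy₀, hyy⟩ := hy
  have hres := f_res (D := D) hDU hyy
  have hmem := fp_fm_mem h3 hL.br hD hy₀
  refine ⟨fp D * y₀ * fm D, hmem, ?_, fun h => hne ?_, ⟨_, hmem, hres⟩, (rk_res hres).symm⟩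
  · have h4 : fp D * y₀ * fm D * (fp D * y₀ * fm D) =
        fp D * y₀ * (fm D * fp D) * y₀ * fm D := by noncomm_ring
    rw [h4, fm_fp h3, mul_zero, zero_mul, zero_mul]
  · refine LinearMap.ext fun u => Subtype.ext ?_
    rw [hres]
    have h4 : (fp D * y₀ * fm D) u ∈ U.map (fp D * y₀ * fm D) := Submodule.mem_map_of_mem u.2
    rw [h, Submodule.mem_bot] at h4
    rw [h4]
    rfl

include hL hnd hωR hss hU hD h3 hDU in
/-- **Multiplicity one.** -/
theorem one_of_K3' (hP : HodgeGen R L) (halt : AltDual R χ U)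
    (hr : finrank K (LinearMap.range (fp DU)) = 1) :
    ∃ e ∈ L, e * e = 0 ∧ finrank K (U.map e) = 1 := by
  obtain ⟨om, ho1, ho2, ho3⟩ := exists_om' hL hnd hωR hss hU halt
  have hirr : ∀ W : Submodule K U, (∀ Y ∈ resL L U, ∀ u ∈ W, Y u ∈ W) → W = ⊥ ∨ W = ⊤ :=
    fun W hW => hL.irr hss hP hU W fun Y hY _ => hW Y hY
  obtain ⟨y, hy, hne⟩ := exists_deg_one hL.resL_br hirr om ho1 ho2 ho3
    (h3_res h3 hDU) ⟨D, hD, hDU⟩ hr
  obtain ⟨N, hN, hN2, -, -, hNr⟩ := exists_global3' hL hD h3 hDU hy hne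
  refine ⟨N, hN, hN2, ?_⟩
  rw [hNr]
  apply le_antisymm
  · rw [← hr]
    refine Submodule.finrank_mono ?_
    rintro _ ⟨v, rfl⟩
    exact ⟨(y * fm DU) v, rfl⟩
  · rw [Nat.one_le_iff_ne_zero]
    exact fun h => hne (rk_eq_zero.1 h)

include hL hnd hωR hss hU hD h3 hDU in
/-- **Symplectic subspaces of dimension four.** -/
theorem one_of_dim_four' (hP : HodgeGen R L) (halt : AltDual R χ U)
    (hdim : finrank K U ≤ 4) (hne : DU ≠ 0) :
    ∃ e ∈ L, e * e = 0 ∧ finrank K (U.map e) = 1 := by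
  obtain ⟨om, ho1, ho2, ho3⟩ := exists_om' hL hnd hωR hss hU halt
  have h3' := h3_res h3 hDU
  have htr := trace_sp om ho2 (fun a b => ho3 DU ⟨D, hD, hDU⟩ a b)
  have hpm : finrank K (LinearMap.range (fp DU)) = finrank K (LinearMap.range (fm DU)) := by
    have h4 := congrArg (LinearMap.trace K U) (f_sub DU)
    rw [map_sub, map_smul, htr, smul_zero, trace_range (fp_fp h3'), trace_range (fm_fm h3'),
      sub_eq_zero] at h4
    exact_mod_cast h4
  have hsum : finrank K (LinearMap.range (fp DU)) + finrank K (LinearMap.range (f0 DU)) +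
      finrank K (LinearMap.range (fm DU)) = finrank K U := by
    have h4 := congrArg (LinearMap.trace K U) (f_add DU)
    rw [map_add, map_add, trace_range (fp_fp h3'), trace_range (fm_fm h3'),
      trace_range (f0_f0 h3'), LinearMap.trace_one] at h4
    exact_mod_cast h4
  have hp0 : finrank K (LinearMap.range (fp DU)) ≠ 0 := by
    intro h
    have h5 : fp DU = 0 := rk_eq_zero.1 h
    rw [hpm] at h
    have h6 : fm DU = 0 := rk_eq_zero.1 h
    have h7 := f_sub DU
    rw [h5, h6, sub_zero] at h7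
    exact hne ((smul_eq_zero.1 h7.symm).resolve_left two_ne_zero)
  by_cases hp1 : finrank K (LinearMap.range (fp DU)) = 1
  · exact one_of_K3' hL hnd hωR hss hU hD h3 hDU hP halt hp1
  · have hp2 : finrank K (LinearMap.range (fp DU)) = 2 := by omega
    have h00 : f0 DU = 0 := rk_eq_zero.1 (by
      change finrank K (LinearMap.range (f0 DU)) = 0
      omega)
    have hx2 : DU * DU = (1 / 4 : K) • 1 := by
      have h4 : (4 : K) • (DU * DU) = 1 := by
        unfold f0 at h00
        exact (sub_eq_zero.1 h00).symm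
      rw [← h4, smul_smul]
      norm_num
    have he1 : Pool.Agent.Y126.OT.e1 DU = fp DU := by
      unfold Pool.Agent.Y126.OT.e1 fp
      rw [hx2]
      module
    have he0 : Pool.Agent.Y126.OT.e0 DU = fm DU := by
      unfold Pool.Agent.Y126.OT.e0 fm
      rw [hx2]
      module
    have hirr : ∀ W : Submodule K U, (∀ Y ∈ resL L U, ∀ u ∈ W, Y u ∈ W) → W = ⊥ ∨ W = ⊤ :=
      fun W hW => hL.irr hss hP hU W fun Y hY _ => hW Y hY
    obtain ⟨y, hy, hyne⟩ := exists_yp hirr hx2 (by
      rw [he1]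
      intro h
      rw [h, LinearMap.range_zero, finrank_bot] at hp2
      omega) (by
      rw [he0]
      intro h
      rw [hpm, h, LinearMap.range_zero, finrank_bot] at hp2
      omega)
    have hyp : Pool.Agent.Y126.OT.yp DU y = fp DU * y * fm DU := by
      unfold Pool.Agent.Y126.OT.yp
      rw [he1, he0]
    rw [hyp] at hyne
    obtain ⟨N, hN, hN2, hN0, hn, hNr⟩ := exists_global3' hL hD h3 hDU hy hyne
    have hn2 : (fp DU * y * fm DU) * (fp DU * y * fm DU) = 0 := by
      have h4 : fp DU * y * fm DU * (fp DU * y * fm DU) =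
          fp DU * y * (fm DU * fp DU) * y * fm DU := by noncomm_ring
      rw [h4, fm_fp h3', mul_zero, zero_mul, zero_mul]
    have hle : rk (fp DU * y * fm DU) ≤ 2 := by
      rw [← hp2]
      refine Submodule.finrank_mono ?_
      rintro _ ⟨v, rfl⟩
      exact ⟨(y * fm DU) v, rfl⟩
    have hr0 : rk (fp DU * y * fm DU) ≠ 0 := fun h => hyne (rk_eq_zero.1 h)
    by_cases hr1 : rk (fp DU * y * fm DU) = 1
    · exact ⟨N, hN, hN2, by rw [hNr, hr1]⟩
    · exact Pool.Agent.Y144.QF.one_of_alt_gen hL hnd hωR hss hU halt hN hN2 hN0 hn hn2 rfl hr0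
        (Or.inl (by omega))

/-- The multiplicity of the slope. -/
theorem finrank_fp (hDU : ∀ u : U, ((DU u : U) : X) = D u) (h3 : D * D * D = (1 / 4 : K) • D) :
    finrank K (LinearMap.range (fp DU)) =
      finrank K (U ⊓ LinearMap.ker (D - (1 / 2 : K) • (1 : Module.End K X)) : Submodule K X) := by
  have h3' := h3_res h3 hDU
  have key : Submodule.map U.subtype (LinearMap.range (fp DU)) =
      U ⊓ LinearMap.ker (D - (1 / 2 : K) • (1 : Module.End K X)) := ?_
  · rw [← key, Submodule.finrank_map_subtype_eq]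
  ext x
  constructor
  · rintro ⟨_, ⟨v, rfl⟩, rfl⟩
    refine ⟨(fp DU v).2, ?_⟩
    change (D - (1 / 2 : K) • (1 : Module.End K X)) ((fp DU v : U) : X) = 0
    have h4 : (DU - (1 / 2 : K) • (1 : Module.End K U)) * fp DU = 0 := by
      unfold fp
      simp only [mul_add, sub_mul, smul_mul_assoc, mul_smul_comm, ← mul_assoc, h3', one_mul]
      module
    have h5 := congrArg (fun F : Module.End K U => ((F v : U) : X)) h4
    simp only [Module.End.mul_apply, LinearMap.sub_apply, LinearMap.smul_apply,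
      Module.End.one_apply, Submodule.coe_sub, Submodule.coe_smul, hDU, LinearMap.zero_apply,
      Submodule.coe_zero] at h5
    exact h5
  · rintro ⟨hxU, hx⟩
    rw [SetLike.mem_coe, LinearMap.mem_ker, LinearMap.sub_apply, sub_eq_zero, LinearMap.smul_apply,
      Module.End.one_apply] at hx
    refine ⟨⟨x, hxU⟩, ⟨⟨x, hxU⟩, ?_⟩, rfl⟩
    apply Subtype.ext
    unfold fp
    simp only [LinearMap.add_apply, LinearMap.smul_apply, Module.End.mul_apply, Submodule.coe_add,
      Submodule.coe_smul, hDU, hx, map_smul]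
    module

end piece

section grading

variable {K : Type} [Field K] [CharZero K] {X : Type} [AddCommGroup X] [Module K X]

theorem grading_three {n : ℕ} (b : Basis (Fin n) K X) (s : Fin n → K)
    (hs : ∀ i, s i = 1 / 2 ∨ s i = 0 ∨ s i = -(1 / 2)) :
    gradingOperator b s * gradingOperator b s * gradingOperator b s =
      (1 / 4 : K) • gradingOperator b s := by
  have hx : ∀ i, gradingOperator b s (b i) = s i • b i := fun i => by
    rw [gradingOperator, Basis.constr_basis]
  refine b.ext fun i => ?_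
  simp only [Module.End.mul_apply, LinearMap.smul_apply, hx, map_smul, smul_smul]
  congr 1
  rcases hs i with h | h | h <;> rw [h] <;> norm_num

end grading

end

end Pool.Agent.R855.MT.QF
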