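import Mathlib
import Pool.Agent.R855.MT.One
import Pool.Agent.Results.MP_021685_ag.ProductsOverNumberFields

/-!
# Sums with an arbitrary representation: local operators normalize
-/

set_option autoImplicit false
set_option linter.unusedSectionVars false

namespace Pool.Agent.R855.MT.Prod

open Module TensorProduct Pool.Agent.Y126.Notions Pool.Agent.R930 Pool.Agent.R930.Notions
open Pool.Agent.H204R3.SP Pool.Agent.H204R3.GP Pool.Agent.W522.U Pool.Agent.Y126.Toric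
open Pool.Agent.W528.Tor (AltDual)
open Pool.Agent.R855.MT
open Pool.Agent.Results.MP_021685_ag.ProductsOverNumberFields (KernelActs PotentiallyAbelian
  KuennethGenerated)

noncomputable section

section normalizer

variable {K : Type} [Field K] {X : Type} [AddCommGroup X] [Module K X]

/-- The normalizer of a space of operators. -/
def nrmOf (𝔫 : Submodule K (Module.End K X)) : Submodule K (Module.End K X) where
  carrier := {z | ∀ n ∈ 𝔫, z * n - n * z ∈ 𝔫}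
  zero_mem' := fun n _ => by
    rw [zero_mul, mul_zero, sub_zero]
    exact 𝔫.zero_mem
  add_mem' := by
    intro z z' hz hz' n hn
    have h1 : (z + z') * n - n * (z + z') = (z * n - n * z) + (z' * n - n * z') := by
      noncomm_ring
    rw [h1]
    exact 𝔫.add_mem (hz n hn) (hz' n hn)
  smul_mem' := by
    intro c z hz n hn
    have h1 : (c • z) * n - n * (c • z) = c • (z * n - n * z) := by
      rw [smul_mul_assoc, mul_smul_comm, smul_sub]
    rw [h1]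
    exact 𝔫.smul_mem c (hz n hn)

theorem nrmOf_br (𝔫 : Submodule K (Module.End K X)) : ∀ x ∈ nrmOf 𝔫, ∀ y ∈ nrmOf 𝔫,
    x * y - y * x ∈ nrmOf 𝔫 := by
  intro x hx y hy n hn
  have h1 : (x * y - y * x) * n - n * (x * y - y * x) =
      (x * (y * n - n * y) - (y * n - n * y) * x) -
        (y * (x * n - n * x) - (x * n - n * x) * y) := by
    noncomm_ring
  rw [h1]
  exact 𝔫.sub_mem (hx _ (hy n hn)) (hy _ (hx n hn))

variable {Γ : Type} [Group Γ] {R : Representation K Γ X} {χ : Γ →* K}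

theorem normalizes_grading [CharZero K] {n : ℕ} {b : Basis (Fin n) K X} {s : Fin n → K}
    (h : IsGrading R χ b s) : Normalizes R (gradingOperator b s) := by
  classical
  obtain ⟨F, a, c, w, hF, hc, hs⟩ := h
  refine normalizes_of_diag b (fun i => (a i : K)) (fun i => (a i).ne_zero) hF s
    (fun i => by rw [gradingOperator, Basis.constr_basis]) fun i j k l hij => ?_
  have h1 : a i / a j = a k / a l := Units.ext (by
    rw [Units.val_div_eq_div_val, Units.val_div_eq_div_val]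
    exact hij)
  have h0 : ∀ x y : Kˣ, w (Additive.ofMul x) - w (Additive.ofMul y) =
      w (Additive.ofMul (x / y)) := fun x y => by rw [ofMul_div, map_sub]
  have h2 : w (Additive.ofMul (a i)) - w (Additive.ofMul (a j)) =
      w (Additive.ofMul (a k)) - w (Additive.ofMul (a l)) := by
    rw [h0, h0, h1]
  rw [hs, hs, hs, hs]
  linear_combination h2

/-- Local operators normalize all stable spaces of operators. -/
theorem local_normalizes [CharZero K] [FiniteDimensional K X] {y : Module.End K X}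
    (h : IsLocal R χ y) : Normalizes R y := by
  intro 𝔫 h𝔫
  change y ∈ nrmOf 𝔫
  induction h with
  | inertia γ h => exact normalizes_unip h 𝔫 h𝔫
  | slope b s h => exact normalizes_grading h 𝔫 h𝔫
  | component b s h d y hy ih =>
    exact component_mem b s y _ (nrmOf_br 𝔫) (normalizes_grading h 𝔫 h𝔫) ih d
  | add x y hx hy ihx ihy => exact (nrmOf 𝔫).add_mem ihx ihy
  | smul t x hx ih => exact (nrmOf 𝔫).smul_mem _ ih
  | commutator x y hx hy ihx ihy => exact nrmOf_br 𝔫 _ ihx _ ihy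

end normalizer

section ne

variable {K : Type} [Field K] [CharZero K] {X : Type} [AddCommGroup X] [Module K X]
  [FiniteDimensional K X] {Γ : Type} [Group Γ] {R : Representation K Γ X} {χ : Γ →* K}
  (ω : X →ₗ[K] X →ₗ[K] K) (hnd : ∀ u, (∀ v, ω u v = 0) → u = 0)
  (hωR : ∀ g u v, ω (R g u) (R g v) = χ g * ω u v) (hss : HasProj R) {U : Submodule K X}
  (hU : SI R U)

include hnd hωR hss hU in
theorem exists_local (h2 : 2 ≤ finrank K U) (h : HasLocalOperators R χ U) :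
    ∃ N₀, IsLocal R χ N₀ ∧ N₀ * N₀ = 0 ∧ ∃ v ∈ U, N₀ v ≠ 0 := by
  obtain ⟨N₀, hloc, hN2, hcase⟩ := h
  refine ⟨N₀, hloc, hN2, ?_⟩
  have hN0 : U.map N₀ ≠ ⊥ := by
    intro h0
    rcases hcase with hd | ⟨halt, d, hd, hd2⟩
    · obtain ⟨d, hd, h3⟩ := hd 2 Nat.prime_two
      apply h3
      rw [defect_of_bot ω hnd hωR hss hU h0 hd]
      exact dvd_zero 2
    · have hd0 := defect_of_bot ω hnd hωR hss hU h0 hd
      rw [hd0] at hd2
      rcases hd2 with h | ⟨h, -⟩ | ⟨h, -⟩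
      · omega
      · exact absurd h (by decide)
      · rw [Nat.coprime_zero_left] at h
        omega
  by_contra hcon
  push Not at hcon
  apply hN0
  rw [eq_bot_iff]
  rintro _ ⟨v, hv, rfl⟩
  rw [Submodule.mem_bot]
  exact hcon v hv

end ne

variable {ℓ : ℕ} [Fact ℓ.Prime] {V W Γ : Type} [AddCommGroup V] [Module ℚ_[ℓ] V]
    [FiniteDimensional ℚ_[ℓ] V] [AddCommGroup W] [Module ℚ_[ℓ] W] [FiniteDimensional ℚ_[ℓ] W]
    [Group Γ] [TopologicalSpace Γ] [IsTopologicalGroup Γ]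
    {ρ : Representation ℚ_[ℓ] Γ V} {χ : Γ →* ℚ_[ℓ]} {n : ℕ} {b : Basis (Fin n) ℚ_[ℓ] V}

theorem kern_pieces_local (ω : V →ₗ[ℚ_[ℓ]] V →ₗ[ℚ_[ℓ]] ℚ_[ℓ])
    (halt : ∀ v, ω v v = 0) (hnondeg : ∀ u, (∀ v, ω v u = 0) → u = 0)
    (hω : ∀ s u v, ω (ρ s u) (ρ s v) = χ s * ω u v)
    (hsemisimple : PotentiallySemisimple ρ)
    (hintegral : ∀ g i j, ‖LinearMap.toMatrix b b (ρ g) i j‖ ≤ 1)
    (hpieces : ∀ U, SI (bcr ρ (AlgebraicClosure ℚ_[ℓ])) U →
      AltDual (bcr ρ (AlgebraicClosure ℚ_[ℓ])) (bcc χ (AlgebraicClosure ℚ_[ℓ])) U ∧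
      HasLocalOperators (bcr ρ (AlgebraicClosure ℚ_[ℓ])) (bcc χ (AlgebraicClosure ℚ_[ℓ])) U)
    (N : Subgroup Γ) (hN : N.Normal)
    (hker : ∀ U, SI (bcr ρ (AlgebraicClosure ℚ_[ℓ])) U → ∀ Δ : Subgroup Γ, Δ.FiniteIndex →
      ∃ g ∈ Δ, g ∈ N ∧ χ g = 1 ∧ ∃ u ∈ U, bcr ρ (AlgebraicClosure ℚ_[ℓ]) g u ≠ u) :
    KernPieces2 (bcr ρ (AlgebraicClosure ℚ_[ℓ])) (bcc χ (AlgebraicClosure ℚ_[ℓ])) N := by
  have hl1 : ∀ u, (∀ v, bcb (AlgebraicClosure ℚ_[ℓ]) ω u v = 0) → u = 0 := fun u hu =>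
    bcb_nondeg_left ω hnondeg (left_nondeg ω halt hnondeg) u hu
  have hinv := bcb_inv (Ω := AlgebraicClosure ℚ_[ℓ]) ρ χ ω hω
  have hpr : HasProj (bcr ρ (AlgebraicClosure ℚ_[ℓ])) := hasProj_bcr ρ _ hsemisimple
  have hne : ∀ U, SI (bcr ρ (AlgebraicClosure ℚ_[ℓ])) U →
      ∃ x ∈ lieT (rN (bcr ρ (AlgebraicClosure ℚ_[ℓ])) N)
        (cN (bcc χ (AlgebraicClosure ℚ_[ℓ])) N), ∃ u ∈ U, x u ≠ 0 :=
    fun U hU => ne_kern hintegral hU (hker U hU)
  have hone : ∀ U, SI (bcr ρ (AlgebraicClosure ℚ_[ℓ])) U →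
      ∃ e ∈ lieT (bcr ρ (AlgebraicClosure ℚ_[ℓ])) (bcc χ (AlgebraicClosure ℚ_[ℓ])),
        e * e = 0 ∧ finrank (AlgebraicClosure ℚ_[ℓ]) (U.map e) = 1 :=
    fun U hU => one_of_local (bcb _ ω) hl1 hinv hpr hU (hpieces U hU).2
  exact
    { normal := hN
      proj := proj_kern N hN hsemisimple
      alt := fun U hU => (hpieces U hU).1
      one := hone
      ne := hne
      oneN := fun U hU => by
        obtain ⟨N₀, hloc, hN2, v, hv, hv0⟩ := exists_local (bcb _ ω) hl1 hinv hpr hU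
          (altDual_two_le (hpieces U hU).1) (hpieces U hU).2
        exact one_kern_sq (bcb _ ω) hl1 hinv hpr hU (hpieces U hU).1 hN (hone U hU) (hne U hU)
          (local_mem (bcb _ ω) hl1 hinv hloc) hN2 (local_normalizes hloc) hv hv0 }

/-- Künneth components with arbitrary coefficients. -/
theorem kuenneth_local (ω : V →ₗ[ℚ_[ℓ]] V →ₗ[ℚ_[ℓ]] ℚ_[ℓ])
    (halt : ∀ v, ω v v = 0) (hnondeg : ∀ u, (∀ v, ω v u = 0) → u = 0)
    (hω : ∀ s u v, ω (ρ s u) (ρ s v) = χ s * ω u v)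
    (hsemisimple : PotentiallySemisimple ρ)
    (hintegral : ∀ g i j, ‖LinearMap.toMatrix b b (ρ g) i j‖ ≤ 1)
    (hpieces : ∀ U, StronglyIrreducible (extend (AlgebraicClosure ℚ_[ℓ]) ρ) U →
      IsSymplectic (extend (AlgebraicClosure ℚ_[ℓ]) ρ)
        ((algebraMap ℚ_[ℓ] (AlgebraicClosure ℚ_[ℓ]) : ℚ_[ℓ] →* _).comp χ) U ∧
      HasLocalOperators (extend (AlgebraicClosure ℚ_[ℓ]) ρ)
        ((algebraMap ℚ_[ℓ] (AlgebraicClosure ℚ_[ℓ]) : ℚ_[ℓ] →* _).comp χ) U)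
    (τ : Representation ℚ_[ℓ] Γ W)
    (hW : PotentiallyAbelian τ ∨ KernelActs (extend (AlgebraicClosure ℚ_[ℓ]) ρ)
      ((algebraMap ℚ_[ℓ] (AlgebraicClosure ℚ_[ℓ]) : ℚ_[ℓ] →* _).comp χ) τ) :
    KuennethGenerated ρ χ τ := by
  -- the condition on `W`
  have hker : ∀ U, SI (bcr ρ (AlgebraicClosure ℚ_[ℓ])) U → ∀ Δ : Subgroup Γ, Δ.FiniteIndex →
      ∃ g ∈ Δ, g ∈ MonoidHom.ker τ ⊓ MonoidHom.ker χ ∧ χ g = 1 ∧
        ∃ u ∈ U, bcr ρ (AlgebraicClosure ℚ_[ℓ]) g u ≠ u := by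
    intro U hU Δ hΔ
    rcases hW with ⟨Δ₀, hΔ₀, hab⟩ | h
    · obtain ⟨g, hg, h, hh, u, hu, hne⟩ := comm_acts hU (altDual_two_le (hpieces U hU).1)
        (Δ ⊓ Δ₀) inferInstance
      refine ⟨g * h * g⁻¹ * h⁻¹, Δ.mul_mem (Δ.mul_mem (Δ.mul_mem hg.1 hh.1) (Δ.inv_mem hg.1))
        (Δ.inv_mem hh.1), ?_, comm_char χ g h, u, hu, hne⟩
      exact (mem_kk τ χ _).2 ⟨comm_kernel (hab g hg.2 h hh.2), comm_char χ g h⟩
    · obtain ⟨g, hg, h1, h2, h3⟩ := h U hU Δ hΔ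
      have h4 : χ g = 1 := (algebraMap ℚ_[ℓ] (AlgebraicClosure ℚ_[ℓ])).injective (by
        rw [map_one]; exact h2)
      exact ⟨g, hg, (mem_kk τ χ _).2 ⟨h1, h4⟩, h4, h3⟩
  -- the kernel
  obtain ⟨N, hNd⟩ : ∃ N : Subgroup Γ, N = MonoidHom.ker τ ⊓ MonoidHom.ker χ := ⟨_, rfl⟩
  have hNn : N.Normal := by rw [hNd]; infer_instance
  have hNk : ∀ g ∈ N, τ g = 1 ∧ χ g = 1 := fun g hg => (mem_kk τ χ g).1 (by rw [← hNd]; exact hg)
  rw [← hNd] at hker
  have hK := kern_pieces_local ω halt hnondeg hω hsemisimple hintegral hpieces N hNn hker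
  refine ⟨fun n a ha f hf => ?_, fun n m f hf => ?_⟩
  · obtain ⟨x, hxx, hx⟩ := split_kern' ω halt hnondeg hω hsemisimple hK
    exact mixed_odd hxx hx hNk ha f hf
  · exact mixed_even (generated_kern (gen_kern (core_kern2' ω halt hnondeg hω hsemisimple hK)))
      (fun B hB => tate2_kern2 ω halt hnondeg hω hsemisimple hK hB) hNk f hf

end

end Pool.Agent.R855.MT.Prod
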