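import Mathlib
import Pool.Agent.R855.MT.Prod
import Pool.Agent.R930.MTProd

/-!
# Sums of `h ^ 1` of an abelian variety with places of arbitrary type and an arbitrary motive
-/

set_option autoImplicit false

namespace Pool.Agent.R855.MT.Sum

open Module TensorProduct Pool.Agent.Y126.Notions Pool.Agent.R930
open Pool.Agent.H204R3.GP Pool.Agent.R855.MT
open Pool.Agent.Results.MP_021685_ag.ProductsOverNumberFields (KernelActs PotentiallyAbelian)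

noncomputable section

/-- Sums of `h ^ 1` of an abelian variety and an arbitrary motive. -/
theorem fixes_sum_iff (ℓ : ℕ) [Fact ℓ.Prime] {V Γ : Type} [AddCommGroup V] [Module ℚ_[ℓ] V]
    [FiniteDimensional ℚ_[ℓ] V] [Group Γ]
    (ρ : Representation ℚ_[ℓ] Γ V) (χ : Γ →* ℚ_[ℓ])
    (ω : V →ₗ[ℚ_[ℓ]] V →ₗ[ℚ_[ℓ]] ℚ_[ℓ]) (halt : ∀ v, ω v v = 0)
    (hnondeg : ∀ u, (∀ v, ω v u = 0) → u = 0)
    (hω : ∀ s u v, ω (ρ s u) (ρ s v) = χ s * ω u v)
    (hsemisimple : PotentiallySemisimple ρ)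
    -- a lattice
    {d : ℕ} (b : Basis (Fin d) ℚ_[ℓ] V)
    (hintegral : ∀ g i j, ‖LinearMap.toMatrix b b (ρ g) i j‖ ≤ 1)
    -- the places
    (hplaces : ∀ U, StronglyIrreducible (extend (AlgebraicClosure ℚ_[ℓ]) ρ) U →
      IsSymplectic (extend (AlgebraicClosure ℚ_[ℓ]) ρ)
        ((algebraMap ℚ_[ℓ] (AlgebraicClosure ℚ_[ℓ]) : ℚ_[ℓ] →* _).comp χ) U ∧
      HasLocalOperators (extend (AlgebraicClosure ℚ_[ℓ]) ρ)
        ((algebraMap ℚ_[ℓ] (AlgebraicClosure ℚ_[ℓ]) : ℚ_[ℓ] →* _).comp χ) U)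
    -- the motive `M`
    {W : Type} [AddCommGroup W] [Module ℚ_[ℓ] W] [FiniteDimensional ℚ_[ℓ] W]
    (τ : Representation ℚ_[ℓ] Γ W)
    (hW : PotentiallyAbelian τ ∨ KernelActs (extend (AlgebraicClosure ℚ_[ℓ]) ρ)
      ((algebraMap ℚ_[ℓ] (AlgebraicClosure ℚ_[ℓ]) : ℚ_[ℓ] →* _).comp χ) τ)
    -- the Mumford-Tate group
    {G : Type} [Group G] (R : Representation ℚ_[ℓ] G V) (T : Representation ℚ_[ℓ] G W)
    (ν : G →* ℚ_[ℓ])
    (hdegree : ∀ B : V →ₗ[ℚ_[ℓ]] V →ₗ[ℚ_[ℓ]] ℚ_[ℓ],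
      (∃ Δ : Subgroup Γ, Δ.FiniteIndex ∧ ∀ s ∈ Δ, ∀ u v, B (ρ s u) (ρ s v) = χ s * B u v) →
      ∀ h u v, B (R h u) (R h v) = ν h * B u v) :
    FixesTateTensors (ρ.prod τ) χ (R.prod T) ν ↔ FixesTateTensors τ χ T ν := by
  let _ : TopologicalSpace Γ := ⊥
  have _ : DiscreteTopology Γ := ⟨rfl⟩
  have _ : IsTopologicalGroup Γ := inferInstance
  refine ⟨fun H s j ψ hψ h w => ?_, fun hZ => fixes_prod (fun β _ j => ?_) hdegree hZ⟩
  · obtain ⟨Δ, hΔ, hψ⟩ := hψ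
    have h1 := H s j (ψ.compLinearMap fun _ => LinearMap.snd ℚ_[ℓ] V W)
      ⟨Δ, hΔ, fun g hg v => hψ g hg fun i => (v i).2⟩ h fun i => (0, w i)
    exact h1
  · have hW' : PotentiallyAbelian (formRep τ χ j β) ∨
        KernelActs (extend (AlgebraicClosure ℚ_[ℓ]) ρ)
        ((algebraMap ℚ_[ℓ] (AlgebraicClosure ℚ_[ℓ]) : ℚ_[ℓ] →* _).comp χ) (formRep τ χ j β) := by
      rcases hW with ⟨Δ, hΔ, h⟩ | h
      · left
        refine ⟨Δ, hΔ, fun g hg g' hg' => ?_⟩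
        refine LinearMap.ext fun ψ => MultilinearMap.ext fun w => ?_
        change χ g ^ j * (χ g' ^ j * ψ (fun i => τ g'⁻¹ (τ g⁻¹ (w i)))) =
          χ g' ^ j * (χ g ^ j * ψ (fun i => τ g⁻¹ (τ g'⁻¹ (w i))))
        have h1 : ∀ w : W, τ g'⁻¹ (τ g⁻¹ w) = τ g⁻¹ (τ g'⁻¹ w) := fun w =>
          congrArg (fun F : Module.End ℚ_[ℓ] W => F w) (h _ (Δ.inv_mem hg') _ (Δ.inv_mem hg))
        simp only [h1]
        ring
      · right
        intro U hU Δ hΔ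
        obtain ⟨g, hg, h1, h2, h3⟩ := h U hU Δ hΔ
        have h4 : χ g = 1 := (algebraMap ℚ_[ℓ] (AlgebraicClosure ℚ_[ℓ])).injective (by
          rw [map_one]; exact h2)
        refine ⟨g, hg, ?_, h2, h3⟩
        refine LinearMap.ext fun ψ => MultilinearMap.ext fun w => ?_
        have h5 : τ g⁻¹ = 1 := by
          have h6 : τ g⁻¹ * τ g = 1 := by rw [← map_mul, inv_mul_cancel, map_one]
          rw [h1, mul_one] at h6
          exact h6
        rw [formRep_apply, h4, h5, one_zpow, one_mul]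
        rfl
    exact Pool.Agent.R855.MT.Prod.kuenneth_local ω halt hnondeg hω hsemisimple hintegral hplaces
      (formRep τ χ j β) hW'

end

end Pool.Agent.R855.MT.Sum
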